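import Pool.Agent.Lib.MP_ff3ed7_lc.U.AM

/-!
Cardinalities for `m = 2050 n ^ 2`, `K = 16 n`; compare `card_cl_le`, `card_msg_le` in
`TotalPP.lean`.
-/

open Finset

namespace Pool.Agent.Lib.MP_ff3ed7_lc.U

variable {n : ℕ}

theorem card_slot (n m : ℕ) : Fintype.card (Slot n m) = 4 * n * m := by
  simp

theorem card_q_le' (hn : 1 ≤ n) : Fintype.card (GQ n (2050 * n ^ 2)) ≤ 8232 * n ^ 3 := by
  rw [card_gq]
  have h1 : n ≤ n ^ 3 := Nat.le_self_pow (by norm_num) n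
  have h2 : n ^ 2 ≤ n ^ 3 := Nat.pow_le_pow_right hn (by norm_num)
  nlinarith

theorem card_x_le' (hn : 1 ≤ n) : Fintype.card (GX n (2050 * n ^ 2)) ≤ 16417 * n ^ 3 := by
  rw [card_gx]
  have h0 : 1 ≤ n ^ 3 := Nat.one_le_pow _ _ hn
  have h1 : n ≤ n ^ 3 := Nat.le_self_pow (by norm_num) n
  have h2 : n ^ 2 ≤ n ^ 3 := Nat.pow_le_pow_right hn (by norm_num)
  nlinarith

theorem card_p' (n : ℕ) : Fintype.card (Fin (4 * n) × Fin (2050 * n ^ 2)) = 8200 * n ^ 3 := by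
  rw [Fintype.card_prod, Fintype.card_fin, Fintype.card_fin]; ring

theorem card_gcell_le (hn : 1 ≤ n) :
    Fintype.card (GCell n (2050 * n ^ 2) n) ≤ 172650 * n ^ 5 := by
  rw [card_tcell, card_p']
  have hq := card_q_le' hn
  have hx := card_x_le' hn
  set x := Fintype.card (GX n (2050 * n ^ 2))
  set q := Fintype.card (GQ n (2050 * n ^ 2))
  have h4 : n ^ 4 ≤ n ^ 5 := Nat.pow_le_pow_right hn (by norm_num)
  have h3 : n ^ 3 ≤ n ^ 5 := Nat.pow_le_pow_right hn (by norm_num)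
  have e1 : (n + 1) * (n + 1) ≤ 4 * n ^ 2 := by nlinarith
  have e2 : (n + 1) * (n + 2) ≤ 6 * n ^ 2 := by nlinarith
  have e3 : n + 2 ≤ 3 * n ^ 2 := by nlinarith
  have e4 : n + 1 ≤ 2 * n := by omega
  have e5 : n + 2 ≤ 3 * n := by omega
  calc _ ≤ 8200 * n ^ 3 + (16417 * n ^ 3 * (2 * n) + (8200 * n ^ 3 * (3 * n) +
      (8232 * n ^ 3 * (4 * n ^ 2) + (8232 * n ^ 3 * (6 * n ^ 2) +
        8232 * n ^ 3 * (3 * n ^ 2))))) := by gcongr
    _ = 8200 * n ^ 3 + 57434 * n ^ 4 + 107016 * n ^ 5 := by ring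
    _ ≤ 8200 * n ^ 5 + 57434 * n ^ 5 + 107016 * n ^ 5 := by gcongr
    _ = _ := by ring

theorem card_input_le (hn : 1 ≤ n) :
    Fintype.card (PB n (2050 * n ^ 2) (16 * n)) + 2 * Fintype.card (TB n (2050 * n ^ 2)) ≤
      2 ^ 32 * n ^ 8 := by
  rw [Fintype.card_prod, Fintype.card_prod (Slot n (2050 * n ^ 2)), card_slot, Fintype.card_fin]
  have h1 := card_gcell_le hn
  set g := Fintype.card (GCell n (2050 * n ^ 2) n)
  have h4 : n ^ 4 ≤ n ^ 8 := Nat.pow_le_pow_right hn (by norm_num)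
  calc _ ≤ 4 * n * (2050 * n ^ 2) * (16 * n) + 2 * (4 * n * (2050 * n ^ 2) * (172650 * n ^ 5)) := by
        gcongr
    _ = 131200 * n ^ 4 + 2831460000 * n ^ 8 := by ring
    _ ≤ 131200 * n ^ 8 + 2831460000 * n ^ 8 := by gcongr
    _ ≤ 2 ^ 32 * n ^ 8 := by
      have : 0 ≤ n ^ 8 := Nat.zero_le _
      nlinarith

theorem card_claim_le (hn : 1 ≤ n) :
    Fintype.card (Claim n (2050 * n ^ 2)) ≤ 2 ^ 31 * n ^ 8 := by
  rw [Fintype.card_sum, Fintype.card_prod, Fintype.card_sum, card_slot, Fintype.card_fin,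
    card_defect, card_p']
  have hq := card_q_le' hn
  set q := Fintype.card (GQ n (2050 * n ^ 2))
  have h8 : n ^ 6 ≤ n ^ 8 := Nat.pow_le_pow_right hn (by norm_num)
  have h2 : n ^ 2 ≤ n ^ 8 := Nat.pow_le_pow_right hn (by norm_num)
  have h7 : n ^ 7 ≤ n ^ 8 := Nat.pow_le_pow_right hn (by norm_num)
  have e0 : 1 ≤ n ^ 2 := Nat.one_le_pow _ _ hn
  have e1 : (n + 1) * (n + 1) ≤ 4 * n ^ 2 := by nlinarith
  have e4 : n + 1 ≤ 2 * n := by omega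
  have e5 : n + 1 ≤ 2 * n ^ 2 := by nlinarith
  have e6 : q ≤ 8232 * n ^ 3 * n ^ 2 := hq.trans (Nat.le_mul_of_pos_right _ (by omega))
  calc _ ≤ 2050 * n ^ 2 + 4 * n * (2050 * n ^ 2) * ((8200 * n ^ 3 + (8200 * n ^ 3 * (2 * n) +
      (8200 * n ^ 3 + (8232 * n ^ 3 * (4 * n ^ 2) + (8232 * n ^ 3 * (2 * n ^ 2) +
      (8232 * n ^ 3 * (2 * n ^ 2) + (8232 * n ^ 3 * (4 * n ^ 2) + (8232 * n ^ 3 * n ^ 2 +
      (8232 * n ^ 3 * (2 * n ^ 2) + 8232 * n ^ 3 * n ^ 2))))))))) +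
      4 * n * (2050 * n ^ 2)) := by
        gcongr
    _ = 2050 * n ^ 2 + 201720000 * n ^ 6 + 134480000 * n ^ 7 + 1080038400 * n ^ 8 := by ring
    _ ≤ 2050 * n ^ 8 + 201720000 * n ^ 8 + 134480000 * n ^ 8 + 1080038400 * n ^ 8 := by gcongr
    _ ≤ 2 ^ 31 * n ^ 8 := by
      have : 0 ≤ n ^ 8 := Nat.zero_le _
      nlinarith

end Pool.Agent.Lib.MP_ff3ed7_lc.U
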