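import Pool.Agent.Lib.MP_ff3ed7_lc.U.Defs

/-! Sums over all contents of the slots, and averages over the random tables. -/

open Finset

namespace Pool.Agent.Lib.MP_ff3ed7_lc.U

/-- Fubini. -/
theorem sum_slots {C A B : Type} [Fintype C] [DecidableEq C] [Fintype A] [DecidableEq A]
    [Fintype B] [DecidableEq B] (f : C → (A → Bool) → (B → Bool) → ℝ) :
    ∑ P : C × A → Bool, ∑ z : C × B → Bool, ∏ c, f c (fun a => P (c, a)) (fun b => z (c, b)) =
      ∏ c, ∑ p, ∑ w, f c p w := by
  have h1 : ∀ c, ∑ p, ∑ w, f c p w = ∑ q : (A → Bool) × (B → Bool), f c q.1 q.2 := by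
    intro c
    rw [Fintype.sum_prod_type]
  simp_rw [h1]
  rw [prod_univ_sum, Fintype.piFinset_univ, ← Fintype.sum_prod_type']
  refine Fintype.sum_equiv
    ⟨fun q c => (fun a => q.1 (c, a), fun b => q.2 (c, b)),
      fun r => (fun i => (r i.1).1 i.2, fun i => (r i.1).2 i.2), fun q => rfl, fun r => rfl⟩
    _ _ fun q => rfl

variable {n m : ℕ}

theorem rnd_card_pos : (0 : ℝ) < Nat.card (Rnd (GX n m) (GQ n m) n) := by
  have : 0 < Nat.card (Rnd (GX n m) (GQ n m) n) := Nat.card_pos
  exact_mod_cast this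

/-- The average of a function over the random tables for the pattern `T`. -/
theorem sum_lam (T : Fin (4 * n) → Finset (Fin m)) (h : (GCell n m n → Bool) → ℝ) :
    ∑ w, lam T w * h w =
      (∑ ω : Rnd (GX n m) (GQ n m) n, h fun g => zb (inp T ω g)) /
        Nat.card (Rnd (GX n m) (GQ n m) n) := by
  have h1 : ∀ w : GCell n m n → Bool, lam T w * h w =
      (∑ ω : Rnd (GX n m) (GQ n m) n, if (fun g => zb (inp T ω g)) = w then h w else 0) /
        Nat.card (Rnd (GX n m) (GQ n m) n) := by
    intro w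
    unfold lam
    rw [← sum_filter, sum_const, nsmul_eq_mul, div_mul_eq_mul_div,
      Nat.card_eq_fintype_card (α := {ω : Rnd (GX n m) (GQ n m) n // _}), Fintype.card_subtype]
    congr 4
    ext ω
    simp only [mem_filter, mem_univ, true_and]
    constructor
    · intro hω
      funext g
      rw [hω g, zb_bz]
    · intro hω g
      rw [← hω, bz_zb]
  rw [sum_congr rfl fun w _ => h1 w, ← sum_div, sum_comm]
  congr 1
  refine sum_congr rfl fun ω _ => ?_
  rw [sum_ite_eq univ (fun g => zb (inp T ω g)) h, if_pos (mem_univ _)]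

theorem lam_nonneg (T : Fin (4 * n) → Finset (Fin m)) (w : GCell n m n → Bool) : 0 ≤ lam T w :=
  div_nonneg (Nat.cast_nonneg _) (Nat.cast_nonneg _)

theorem sum_lam_one (T : Fin (4 * n) → Finset (Fin m)) : ∑ w, lam T w = 1 := by
  have h1 := sum_lam T fun _ => 1
  simp only [mul_one, sum_const, card_univ, nsmul_eq_mul] at h1
  rw [h1, Nat.card_eq_fintype_card]
  have h2 := rnd_card_pos (n := n) (m := m)
  rw [Nat.card_eq_fintype_card] at h2
  exact div_self h2.ne'

theorem lam_ne_zero {T : Fin (4 * n) → Finset (Fin m)} {w : GCell n m n → Bool}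
    (h : lam T w ≠ 0) : ∃ ω, (fun g => bz (w g)) = inp T ω := by
  by_contra hcon
  push Not at hcon
  apply h
  unfold lam
  have : IsEmpty {ω : Rnd (GX n m) (GQ n m) n // ∀ g, inp T ω g = bz (w g)} := by
    constructor
    rintro ⟨ω, hω⟩
    exact hcon ω (funext fun g => (hω g).symm)
  rw [Nat.card_of_isEmpty]
  simp

theorem kap_nonneg (K : ℕ) (T : Fin (4 * n) → Finset (Fin m)) (c : Slot n m)
    (p : Fin K → Bool) (w : GCell n m n → Bool) : 0 ≤ kap K T c p w := by
  unfold kap
  have h1 : (0 : ℝ) ≤ 2 ^ K - 1 := by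
    have : (1 : ℝ) ≤ 2 ^ K := one_le_pow₀ (by norm_num)
    linarith
  split_ifs
  · exact lam_nonneg _ _
  · exact le_rfl
  · exact le_rfl
  · exact mul_nonneg (div_nonneg zero_le_one h1) (by positivity)

theorem sum_kap {K : ℕ} (hK : 1 ≤ K) (T : Fin (4 * n) → Finset (Fin m)) (c : Slot n m) :
    ∑ p, ∑ w, kap K T c p w = 1 := by
  classical
  by_cases hc : c.2 ∈ T c.1
  · simp only [kap, if_pos hc]
    rw [sum_eq_single (fun _ => false)]
    · simp [sum_lam_one]
    · intro p _ hp
      have : ¬ ∀ k, p k = false := fun h => hp (funext h)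
      simp [this]
    · simp
  · simp only [kap, if_neg hc]
    have h1 : ∀ p : Fin K → Bool, ∑ w : GCell n m n → Bool,
        (if ∀ k, p k = false then (0 : ℝ)
          else 1 / (2 ^ K - 1) * (1 / 2 ^ Fintype.card (GCell n m n))) =
        if p = fun _ => false then 0 else 1 / (2 ^ K - 1) := by
      intro p
      by_cases hp : p = fun _ => false
      · subst hp
        simp
      · have h2 : ¬ ∀ k, p k = false := fun h => hp (funext h)
        rw [if_neg hp]
        simp only [h2, if_false, sum_const, card_univ, Fintype.card_fun, Fintype.card_bool,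
          nsmul_eq_mul]
        push_cast
        field_simp
    rw [sum_congr rfl fun p _ => h1 p]
    have h3 : (2 : ℝ) ^ K - 1 ≠ 0 := by
      have : (2 : ℝ) ^ 1 ≤ 2 ^ K := pow_le_pow_right₀ (by norm_num) hK
      linarith
    have h4 : ∑ p : Fin K → Bool, (if p = fun _ => false then (0 : ℝ) else 1 / (2 ^ K - 1)) =
        ∑ p ∈ univ.erase (fun _ : Fin K => false), (1 / (2 ^ K - 1) : ℝ) := by
      rw [← sum_erase univ (a := fun _ : Fin K => false) (by simp)]
      refine sum_congr rfl fun p hp => ?_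
      rw [if_neg (ne_of_mem_erase hp)]
    rw [h4, sum_const, card_erase_of_mem (mem_univ _), card_univ, Fintype.card_fun,
      Fintype.card_bool, Fintype.card_fin, nsmul_eq_mul, Nat.cast_sub Nat.one_le_two_pow]
    push_cast
    field_simp

end Pool.Agent.Lib.MP_ff3ed7_lc.U
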