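import Pool.Agent.Lib.MP_ff3ed7_lc.U.DualA
import Pool.Agent.Lib.MP_ff3ed7_lc.U.Fub

/-!
The Fourier coefficients of the signed measure.

Let `U c`, `S c` be the parts of `U`, `S` at slot `c` and `Sp` the set of the slots where one of
them is not empty.  The coefficient of `mix K W` is `∑ T, W T * ∏ c, κ̂ T c`, where `κ̂ T c = 1` if
`c ∉ Sp`, and for `c ∈ Sp`: `κ̂ T c = λ̂ T (S c)` (average over `ω` of the character of `inp T ω`)
if `c` is active, `-1 / (2 ^ K - 1)` if `c` is not active and `S c = ∅`, and `0` if `c` is not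
active and `S c ≠ ∅`.  By `hide` the product is a function of the traces of `T` on
`R = Sp ∪ pcells` if `|Sp| + |S| ≤ D` and `Dom T`; then `junta` and `V0_junta`.  Otherwise it is
bounded by `∏ c ∈ Sp, ([c active] + 1 / (2 ^ K - 1))`; use `V0_le`, `joint_W0`, `joint_W1`,
`(1 / 2 + 1 / 7) ^ 2 ≤ 1 / 2`.
-/

set_option linter.unusedSectionVars false

open Finset

namespace Pool.Agent.Lib.MP_ff3ed7_lc.U

variable {n m K D : ℕ}

section parts

variable {C A : Type} [Fintype C] [DecidableEq C] [Fintype A] [DecidableEq A]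

/-- The part of `U` at `c`. -/
def part (U : Finset (C × A)) (c : C) : Finset A := univ.filter fun a => (c, a) ∈ U

theorem mem_part {U : Finset (C × A)} {c : C} {a : A} : a ∈ part U c ↔ (c, a) ∈ U := by
  simp [part]

theorem prod_part (U : Finset (C × A)) (f : C × A → ℝ) :
    ∏ i ∈ U, f i = ∏ c, ∏ a ∈ part U c, f (c, a) := by
  have h1 : ∀ c, ∏ a ∈ part U c, f (c, a) = ∏ a, if (c, a) ∈ U then f (c, a) else 1 := by
    intro c
    rw [part, prod_filter]
  rw [prod_congr rfl fun c _ => h1 c, ← Fintype.prod_prod_type', prod_ite_mem, univ_inter]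

theorem card_part_le (U : Finset (C × A)) (c : C) : (part U c).card ≤ U.card := by
  refine card_le_card_of_injOn (fun a => (c, a)) (fun a ha => mem_coe.mpr (mem_part.mp ha)) ?_
  intro a _ b _ h
  simpa using h

theorem sum_char_one (S : Finset A) :
    ∑ w : A → Bool, ∏ i ∈ S, chi (w i) = if S = ∅ then 2 ^ Fintype.card A else 0 := by
  have h1 : ∀ w : A → Bool, ∏ i ∈ S, chi (w i) = ∏ i, if i ∈ S then chi (w i) else 1 := by
    intro w
    rw [prod_ite_mem, univ_inter]
  rw [sum_congr rfl fun w _ => h1 w]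
  have h2 := prod_univ_sum (fun _ : A => (univ : Finset Bool))
    (fun i s => if i ∈ S then chi s else 1)
  rw [Fintype.piFinset_univ] at h2
  rw [← h2]
  split_ifs with hS
  · subst hS
    simp
  · obtain ⟨i, hi⟩ := nonempty_iff_ne_empty.mpr hS
    refine prod_eq_zero (mem_univ i) ?_
    simp [hi, chi]

theorem abs_prod_chi (S : Finset A) (w : A → Bool) : |∏ i ∈ S, chi (w i)| = 1 := by
  rw [abs_prod]
  exact prod_eq_one fun i _ => chi_abs _

end parts

/-- The average of a character over the random tables. -/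
noncomputable def lh (T : Fin (4 * n) → Finset (Fin m)) (S : Finset (GCell n m n)) : ℝ :=
  ∑ w, lam T w * ∏ g ∈ S, chi (w g)

theorem abs_lh_le (T : Fin (4 * n) → Finset (Fin m)) (S : Finset (GCell n m n)) :
    |lh T S| ≤ 1 := by
  unfold lh
  refine (abs_sum_le_sum_abs _ _).trans ?_
  rw [← sum_lam_one T]
  refine sum_le_sum fun w _ => ?_
  rw [abs_mul, abs_prod_chi, mul_one, abs_of_nonneg (lam_nonneg T w)]

/-- Locality of the averages. -/
theorem lh_local {S : Finset (GCell n m n)} (hS : S.card ≤ n)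
    {T : Fin (4 * n) → Finset (Fin m)} (hT : Dom T) :
    lh T S = lh (fun v => T v ∩ pcells S v) S := by
  unfold lh
  rw [sum_lam, sum_lam]
  congr 1
  exact hide hS hS hT (fun a => ∏ g ∈ S, chi (zb (a g))) fun x y hxy =>
    prod_congr rfl fun g hg => by rw [hxy g hg]

/-- The coefficient of an inactive slot. -/
noncomputable def co (K : ℕ) (u : Finset (Fin K)) (s : Finset (GCell n m n)) : ℝ :=
  (if u = ∅ then 1 else -(1 / (2 ^ K - 1))) * if s = ∅ then 1 else 0

theorem two_pow_sub (hK : 1 ≤ K) : (0 : ℝ) < 2 ^ K - 1 := by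
  have : (2 : ℝ) ^ 1 ≤ 2 ^ K := pow_le_pow_right₀ (by norm_num) hK
  linarith

/-- The coefficient of a slot. -/
theorem kap_hat (hK : 1 ≤ K) (T : Fin (4 * n) → Finset (Fin m)) (c : Slot n m)
    (u : Finset (Fin K)) (s : Finset (GCell n m n)) :
    ∑ p, ∑ w, kap K T c p w * ((∏ k ∈ u, chi (p k)) * ∏ g ∈ s, chi (w g)) =
      if c.2 ∈ T c.1 then lh T s else co K u s := by
  have hpos := two_pow_sub hK
  by_cases hc : c.2 ∈ T c.1
  · simp only [kap, if_pos hc]
    rw [sum_eq_single (fun _ => false)]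
    · unfold lh
      refine sum_congr rfl fun w _ => ?_
      simp [chi]
    · intro p _ hp
      have : ¬ ∀ k, p k = false := fun h => hp (funext h)
      simp [this]
    · simp
  · simp only [kap, if_neg hc]
    set G := Fintype.card (GCell n m n) with hG
    have h1 : ∀ p : Fin K → Bool, ∑ w : GCell n m n → Bool,
        (if ∀ k, p k = false then (0 : ℝ) else 1 / (2 ^ K - 1) * (1 / 2 ^ G)) *
          ((∏ k ∈ u, chi (p k)) * ∏ g ∈ s, chi (w g)) =
        (∏ k ∈ u, chi (p k) - if p = fun _ => false then 1 else 0) * (1 / (2 ^ K - 1)) *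
          if s = ∅ then 1 else 0 := by
      intro p
      rw [← mul_sum, ← mul_sum, sum_char_one]
      by_cases hp : p = fun _ => false
      · subst hp
        simp [chi]
      · have h2 : ¬ ∀ k, p k = false := fun h => hp (funext h)
        rw [if_neg h2, if_neg hp, sub_zero]
        split_ifs
        · rw [← hG]
          field_simp
        · ring
    rw [sum_congr rfl fun p _ => h1 p, ← sum_mul, ← sum_mul, sum_sub_distrib, sum_char_one]
    unfold co
    congr 1
    simp only [sum_ite_eq', mem_univ, if_true, Fintype.card_fin]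
    split_ifs
    · field_simp
    · ring

/-- The coefficients of `mix`. -/
theorem mix_hat (hK : 1 ≤ K) (W : (Fin (4 * n) → Finset (Fin m)) → ℝ)
    (U : Finset (PB n m K)) (S : Finset (TB n m)) :
    ∑ P, ∑ z, mix K W P z * (∏ i ∈ U, chi (P i)) * ∏ i ∈ S, chi (z i) =
      ∑ T, W T * ∏ c : Slot n m,
        if c.2 ∈ T c.1 then lh T (part S c) else co K (part U c) (part S c) := by
  have h1 : ∀ (P : PB n m K → Bool) (z : TB n m → Bool),
      mix K W P z * (∏ i ∈ U, chi (P i)) * ∏ i ∈ S, chi (z i) =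
      ∑ T, W T * ∏ c, (kap K T c (fun k => P (c, k)) (fun g => z (c, g)) *
        ((∏ k ∈ part U c, chi (P (c, k))) * ∏ g ∈ part S c, chi (z (c, g)))) := by
    intro P z
    unfold mix
    rw [mul_assoc, sum_mul, prod_part U fun i => chi (P i), prod_part S fun i => chi (z i),
      ← prod_mul_distrib]
    refine sum_congr rfl fun T _ => ?_
    rw [mul_assoc, ← prod_mul_distrib]
  rw [sum_congr rfl fun P _ => sum_congr rfl fun z _ => h1 P z]
  rw [sum_congr rfl fun P _ => sum_comm, sum_comm]
  refine sum_congr rfl fun T _ => ?_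
  rw [sum_congr rfl fun P _ => (mul_sum _ _ _).symm, ← mul_sum]
  congr 1
  rw [sum_slots fun c p w => kap K T c p w *
    ((∏ k ∈ part U c, chi (p k)) * ∏ g ∈ part S c, chi (w g))]
  exact prod_congr rfl fun c _ => kap_hat hK T c _ _

/-- The slots which are touched. -/
noncomputable def Spt (U : Finset (PB n m K)) (S : Finset (TB n m)) : Finset (Slot n m) :=
  univ.filter fun c => part U c ≠ ∅ ∨ part S c ≠ ∅

theorem prod_Spt (U : Finset (PB n m K)) (S : Finset (TB n m))
    (T : Fin (4 * n) → Finset (Fin m)) :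
    ∏ c : Slot n m, (if c.2 ∈ T c.1 then lh T (part S c) else co K (part U c) (part S c)) =
      ∏ c ∈ Spt U S, if c.2 ∈ T c.1 then lh T (part S c) else co K (part U c) (part S c) := by
  symm
  refine prod_subset (subset_univ _) fun c _ hc => ?_
  simp only [Spt, mem_filter, mem_univ, true_and, not_or, not_not] at hc
  obtain ⟨h1, h2⟩ := hc
  split_ifs
  · rw [h2]
    unfold lh
    simp [sum_lam_one]
  · rw [h1, h2]
    simp [co]

theorem abs_prod_le (hK : 1 ≤ K) (U : Finset (PB n m K)) (S : Finset (TB n m))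
    (T : Fin (4 * n) → Finset (Fin m)) :
    |∏ c ∈ Spt U S, if c.2 ∈ T c.1 then lh T (part S c) else co K (part U c) (part S c)| ≤
      ∏ c ∈ Spt U S, ((if c.2 ∈ T c.1 then 1 else 0) + 1 / (2 ^ K - 1)) := by
  have hpos := two_pow_sub hK
  rw [abs_prod]
  refine prod_le_prod (fun c _ => abs_nonneg _) fun c hc => ?_
  simp only [Spt, mem_filter, mem_univ, true_and] at hc
  have h0 : (0 : ℝ) ≤ 1 / (2 ^ K - 1) := by positivity
  split_ifs with h1
  · have := abs_lh_le T (part S c)
    linarith
  · unfold co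
    by_cases hs : part S c = ∅
    · have hu : part U c ≠ ∅ := by tauto
      rw [if_neg hu, if_pos hs, mul_one, abs_neg, abs_of_nonneg h0]
      linarith
    · rw [if_neg hs, mul_zero, abs_zero]
      linarith

/-- The public positions on which the coefficient depends. -/
noncomputable def RR (U : Finset (PB n m K)) (S : Finset (TB n m)) : Finset (Slot n m) := by
  classical
  exact Spt U S ∪ univ.filter fun q => ∃ i ∈ S, i.2.pb = some q

theorem card_RR_le (U : Finset (PB n m K)) (S : Finset (TB n m)) :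
    (RR U S).card ≤ (Spt U S).card + S.card := by
  classical
  unfold RR
  refine (card_union_le _ _).trans (Nat.add_le_add_left ?_ _)
  refine (card_le_card_of_injOn (t := S.image fun i => i.2.pb) (fun q => some q) ?_ ?_).trans
    card_image_le
  · intro q hq
    simp only [coe_filter, mem_univ, true_and, Set.mem_ofPred_eq] at hq
    obtain ⟨i, hi, h⟩ := hq
    exact mem_coe.mpr (mem_image.mpr ⟨i, hi, h⟩)
  · intro q _ q' _ h
    simpa using h

/-- The traces. -/
noncomputable def Rv (U : Finset (PB n m K)) (S : Finset (TB n m)) (v : Fin (4 * n)) :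
    Finset (Fin m) := univ.filter fun j => (v, j) ∈ RR U S

theorem mem_Rv {U : Finset (PB n m K)} {S : Finset (TB n m)} {v : Fin (4 * n)} {j : Fin m} :
    j ∈ Rv U S v ↔ (v, j) ∈ RR U S := by
  simp [Rv]

theorem card_Rv_le (U : Finset (PB n m K)) (S : Finset (TB n m)) (v : Fin (4 * n)) :
    (Rv U S v).card ≤ (Spt U S).card + S.card := by
  refine le_trans ?_ (card_RR_le U S)
  refine card_le_card_of_injOn (fun j => (v, j)) (fun j hj => mem_coe.mpr (mem_Rv.mp hj)) ?_
  intro j _ j' _ h
  simpa using h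

theorem card_Rv_blocks_le (U : Finset (PB n m K)) (S : Finset (TB n m)) :
    (univ.filter fun v => Rv U S v ≠ ∅).card ≤ (Spt U S).card + S.card := by
  refine le_trans ?_ (card_RR_le U S)
  refine le_trans (card_le_card (t := (RR U S).image Prod.fst) ?_) card_image_le
  intro v hv
  simp only [mem_filter, mem_univ, true_and] at hv
  obtain ⟨j, hj⟩ := nonempty_iff_ne_empty.mpr hv
  exact mem_image.mpr ⟨(v, j), mem_Rv.mp hj, rfl⟩

/-- Locality of the coefficient. -/
theorem prod_local {U : Finset (PB n m K)} {S : Finset (TB n m)} (hS : S.card ≤ n)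
    {T : Fin (4 * n) → Finset (Fin m)} (hT : Dom T) :
    ∏ c ∈ Spt U S, (if c.2 ∈ T c.1 then lh T (part S c) else co K (part U c) (part S c)) =
      ∏ c ∈ Spt U S, if c.2 ∈ T c.1 ∩ Rv U S c.1 then
        lh (fun v => T v ∩ Rv U S v ∩ pcells (part S c) v) (part S c)
        else co K (part U c) (part S c) := by
  classical
  refine prod_congr rfl fun c hc => ?_
  have h1 : c.2 ∈ T c.1 ∩ Rv U S c.1 ↔ c.2 ∈ T c.1 := by
    rw [mem_inter, mem_Rv]
    refine ⟨fun h => h.1, fun h => ⟨h, ?_⟩⟩
    unfold RR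
    exact mem_union_left _ hc
  simp only [h1]
  split_ifs with h2
  · rw [lh_local ((card_part_le S c).trans hS) hT]
    congr 1
    funext v
    ext j
    simp only [mem_inter, mem_Rv]
    constructor
    · rintro ⟨h3, h4⟩
      refine ⟨⟨h3, ?_⟩, h4⟩
      obtain ⟨g, hg, hg2⟩ := mem_pcells.mp h4
      unfold RR
      refine mem_union_right _ ?_
      simp only [mem_filter, mem_univ, true_and]
      exact ⟨(c, g), mem_part.mp hg, hg2⟩
    · rintro ⟨⟨h3, -⟩, h4⟩
      exact ⟨h3, h4⟩
  · rfl

theorem fourier_le (hn : 1 ≤ n) (hK : 3 ≤ K) (hm : ∀ t ∈ nds n, 2 * t ≤ m) (hD : 9 * D ≤ n)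
    (U : Finset (PB n m K)) (S : Finset (TB n m)) :
    (∑ P, ∑ z, (mix K (W1 n) P z - mix K (V0 n D) P z) * (∏ i ∈ U, chi (P i)) *
      ∏ i ∈ S, chi (z i)) ^ 2 ≤ 9 / 2 ^ D * 2 ^ S.card := by
  have hK1 : 1 ≤ K := by omega
  have hm' : ∀ t ∈ nds n, t ≤ m := fun t ht => by have := hm t ht; omega
  simp only [sub_mul, sum_sub_distrib]
  rw [mix_hat hK1, mix_hat hK1]
  simp only [prod_Spt]
  rcases Nat.lt_or_ge D ((Spt U S).card + S.card) with hlt | hle
  · -- large characters
    set η : ℝ := 1 / (2 ^ K - 1) with hη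
    have hpos := two_pow_sub hK1
    have hη0 : 0 ≤ η := by positivity
    have hη1 : η ≤ 1 / 7 := by
      rw [hη]
      refine one_div_le_one_div_of_le (by norm_num) ?_
      have : (2 : ℝ) ^ 3 ≤ 2 ^ K := pow_le_pow_right₀ (by norm_num) hK
      linarith
    have hbound : ∀ W : (Fin (4 * n) → Finset (Fin m)) → ℝ, (∀ T, 0 ≤ W T) →
        |∑ T, W T * ∏ c ∈ Spt U S,
          (if c.2 ∈ T c.1 then lh T (part S c) else co K (part U c) (part S c))| ≤
        ∑ T, W T * ∏ c ∈ Spt U S, ((if c.2 ∈ T c.1 then 1 else 0) + η) := by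
      intro W hW
      refine (abs_sum_le_sum_abs _ _).trans (sum_le_sum fun T _ => ?_)
      rw [abs_mul, abs_of_nonneg (hW T)]
      exact mul_le_mul_of_nonneg_left (abs_prod_le hK1 U S T) (hW T)
    have hprod0 : ∀ T : Fin (4 * n) → Finset (Fin m),
        0 ≤ ∏ c ∈ Spt U S, ((if c.2 ∈ T c.1 then (1 : ℝ) else 0) + η) := by
      intro T
      refine prod_nonneg fun c _ => ?_
      split_ifs <;> linarith
    have b1 := (hbound (W1 n) W1_nonneg).trans (joint_W1 hm (Spt U S) hη0)
    have b0 : |∑ T, V0 n D T * ∏ c ∈ Spt U S,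
          (if c.2 ∈ T c.1 then lh T (part S c) else co K (part U c) (part S c))| ≤
        2 * (1 / 2 + η) ^ (Spt U S).card := by
      refine (hbound (V0 n D) (V0_nonneg hm' hD)).trans ?_
      calc ∑ T, V0 n D T * ∏ c ∈ Spt U S, ((if c.2 ∈ T c.1 then 1 else 0) + η)
          ≤ ∑ T, 2 * W0 n T * ∏ c ∈ Spt U S, ((if c.2 ∈ T c.1 then 1 else 0) + η) :=
            sum_le_sum fun T _ => mul_le_mul_of_nonneg_right (V0_le hm' hD T) (hprod0 T)
        _ = 2 * ∑ T, W0 n T * ∏ c ∈ Spt U S, ((if c.2 ∈ T c.1 then 1 else 0) + η) := by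
            rw [mul_sum]
            exact sum_congr rfl fun T _ => by ring
        _ ≤ _ := mul_le_mul_of_nonneg_left (joint_W0 hm (Spt U S) hη0) (by norm_num)
    set X := ∑ T, W1 n T * ∏ c ∈ Spt U S,
      (if c.2 ∈ T c.1 then lh T (part S c) else co K (part U c) (part S c))
    set Y := ∑ T, V0 n D T * ∏ c ∈ Spt U S,
      (if c.2 ∈ T c.1 then lh T (part S c) else co K (part U c) (part S c))
    set ρ := (1 / 2 + η) ^ (Spt U S).card with hρ
    have hρ0 : 0 ≤ ρ := by positivity
    have h1 : |X - Y| ≤ 3 * ρ := by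
      calc |X - Y| ≤ |X| + |Y| := abs_sub _ _
        _ ≤ ρ + 2 * ρ := add_le_add b1 b0
        _ = 3 * ρ := by ring
    have h2 : (X - Y) ^ 2 ≤ (3 * ρ) ^ 2 := by
      rw [← sq_abs]
      exact pow_le_pow_left₀ (abs_nonneg _) h1 2
    have h3 : ρ ^ 2 ≤ (1 / 2) ^ (Spt U S).card := by
      rw [hρ, ← pow_mul, mul_comm, pow_mul]
      refine pow_le_pow_left₀ (by positivity) ?_ _
      nlinarith
    refine h2.trans ?_
    rw [mul_pow]
    have h4 : (1 / 2 : ℝ) ^ (Spt U S).card ≤ 1 / 2 ^ D * 2 ^ S.card := by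
      rw [one_div_pow, div_mul_eq_mul_div, one_mul, div_le_div_iff₀ (by positivity)
        (by positivity), one_mul, ← pow_add]
      exact pow_le_pow_right₀ (by norm_num) (by omega)
    calc (3 : ℝ) ^ 2 * ρ ^ 2 ≤ 9 * (1 / 2 ^ D * 2 ^ S.card) := by
          have := h3.trans h4
          nlinarith
      _ = _ := by ring
  · -- small characters
    have hS : S.card ≤ n := by omega
    let φ : (Fin (4 * n) → Finset (Fin m)) → ℝ := fun T' => ∏ c ∈ Spt U S,
      if c.2 ∈ T' c.1 then lh (fun v => T' v ∩ pcells (part S c) v) (part S c)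
      else co K (part U c) (part S c)
    have key : ∀ W : (Fin (4 * n) → Finset (Fin m)) → ℝ, (∀ T, W T ≠ 0 → Dom T) →
        ∑ T, W T * ∏ c ∈ Spt U S,
          (if c.2 ∈ T c.1 then lh T (part S c) else co K (part U c) (part S c)) =
        ∑ T, W T * φ fun v => T v ∩ Rv U S v := by
      intro W hW
      refine sum_congr rfl fun T _ => ?_
      by_cases h : W T = 0
      · rw [h, zero_mul, zero_mul]
      · rw [prod_local hS (hW T h)]
    have e1 := junta hm' (Rv U S) (fun v => (card_Rv_le U S v).trans (by omega)) φ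
    have e0 := V0_junta (d := n) (Rv U S) ((card_Rv_blocks_le U S).trans hle) φ
    rw [key (W1 n) fun T h => Or.inr (by rw [W1_supp h]; omega),
      key (V0 n D) fun T h => Or.inl (V0_supp (by omega) h), e1, e0, sub_self,
      zero_pow two_ne_zero]
    positivity

end Pool.Agent.Lib.MP_ff3ed7_lc.U
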