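import Pool.Agent.Lib.MP_ff3ed7_lc.U.Fub

/-!
Masses and supports of the measures.  In `mix K W P z` only the pattern `T = actv P` contributes.
-/

open Finset

namespace Pool.Agent.Lib.MP_ff3ed7_lc.U

variable {n m K D : ℕ}

theorem mix_nonneg {W : (Fin (4 * n) → Finset (Fin m)) → ℝ} (hW : ∀ T, 0 ≤ W T) (_hK : 1 ≤ K)
    (P : PB n m K → Bool) (z : TB n m → Bool) : 0 ≤ mix K W P z :=
  sum_nonneg fun T _ => mul_nonneg (hW T) (prod_nonneg fun _ _ => kap_nonneg _ _ _ _ _)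

theorem sum_mix (W : (Fin (4 * n) → Finset (Fin m)) → ℝ) (hK : 1 ≤ K) :
    ∑ P : PB n m K → Bool, ∑ z : TB n m → Bool, mix K W P z = ∑ T, W T := by
  classical
  unfold mix
  have h1 : ∀ P : PB n m K → Bool, ∑ z : TB n m → Bool, ∑ T, W T * ∏ c, kap K T c
      (fun k => P (c, k)) (fun g => z (c, g)) = ∑ T, W T * ∑ z : TB n m → Bool, ∏ c, kap K T c
      (fun k => P (c, k)) (fun g => z (c, g)) := by
    intro P
    rw [sum_comm]
    exact sum_congr rfl fun T _ => (mul_sum _ _ _).symm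
  rw [sum_congr rfl fun P _ => h1 P, sum_comm]
  refine sum_congr rfl fun T _ => ?_
  rw [← mul_sum, sum_slots fun c => kap K T c]
  rw [prod_congr rfl fun c _ => sum_kap hK T c, prod_const_one, mul_one]

theorem kap_pattern {T : Fin (4 * n) → Finset (Fin m)} {c : Slot n m} {p : Fin K → Bool}
    {w : GCell n m n → Bool} (h : kap K T c p w ≠ 0) :
    (c.2 ∈ T c.1 ↔ ∀ k, p k = false) ∧ (c.2 ∈ T c.1 → lam T w ≠ 0) := by
  unfold kap at h
  by_cases h1 : c.2 ∈ T c.1
  · rw [if_pos h1] at h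
    by_cases h2 : ∀ k, p k = false
    · rw [if_pos h2] at h
      exact ⟨⟨fun _ => h2, fun _ => h1⟩, fun _ => h⟩
    · rw [if_neg h2] at h
      exact absurd rfl h
  · rw [if_neg h1] at h
    by_cases h2 : ∀ k, p k = false
    · rw [if_pos h2] at h
      exact absurd rfl h
    · exact ⟨⟨fun h3 => absurd h3 h1, fun h3 => absurd h3 h2⟩, fun h3 => absurd h3 h1⟩

theorem pattern_eq {T : Fin (4 * n) → Finset (Fin m)} {P : PB n m K → Bool} {z : TB n m → Bool}
    (h : ∏ c, kap K T c (fun k => P (c, k)) (fun g => z (c, g)) ≠ 0) : T = actv P := by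
  funext v
  ext j
  have h1 := (prod_ne_zero_iff.mp h) (v, j) (mem_univ _)
  rw [actv, mem_filter]
  simp only [mem_univ, true_and]
  exact (kap_pattern h1).1

theorem mix_eq (W : (Fin (4 * n) → Finset (Fin m)) → ℝ) (P : PB n m K → Bool)
    (z : TB n m → Bool) : mix K W P z = W (actv P) *
      ∏ c, kap K (actv P) c (fun k => P (c, k)) (fun g => z (c, g)) := by
  unfold mix
  rw [sum_eq_single (actv P)]
  · intro T _ hT
    have : ∏ c, kap K T c (fun k => P (c, k)) (fun g => z (c, g)) = 0 := by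
      by_contra h
      exact hT (pattern_eq h)
    rw [this, mul_zero]
  · intro h
    exact absurd (mem_univ _) h

theorem mix_supp {W : (Fin (4 * n) → Finset (Fin m)) → ℝ} {P : PB n m K → Bool}
    {z : TB n m → Bool} (h : mix K W P z ≠ 0) :
    W (actv P) ≠ 0 ∧ ∀ v, ∀ j ∈ actv P v, ∃ ω, tbl z (v, j) = inp (actv P) ω := by
  rw [mix_eq] at h
  refine ⟨left_ne_zero_of_mul h, fun v j hj => ?_⟩
  have h1 := (prod_ne_zero_iff.mp (right_ne_zero_of_mul h)) (v, j) (mem_univ _)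
  exact lam_ne_zero ((kap_pattern h1).2 hj)

theorem good_inp {T : Fin (4 * n) → Finset (Fin m)} (h : Dom T) (ω : Rnd (GX n m) (GQ n m) n) :
    Good T (inp T ω) :=
  ⟨valid_tab (sol_sat h) ω, pubs_inp h ω⟩

theorem F4_eq_true {T : Fin (4 * n) → Finset (Fin m)} {tb : Slot n m → GCell n m n → ZMod 2} :
    F4 T tb = true ↔ ((∃ v, ∃ j ∈ T v, ¬ Good T (tb (v, j))) ∨ n < (ne T).card) := by
  simp [F4]

theorem F4_eq_false {T : Fin (4 * n) → Finset (Fin m)} {tb : Slot n m → GCell n m n → ZMod 2} :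
    F4 T tb = false ↔ ((∀ v, ∀ j ∈ T v, Good T (tb (v, j))) ∧ (ne T).card ≤ n) := by
  rw [← Bool.not_eq_true, F4_eq_true, not_or, not_lt]
  simp

theorem F5_of_mix_W1 (hn : 1 ≤ n) {P : PB n m K → Bool} {z : TB n m → Bool}
    (h : mix K (W1 n) P z ≠ 0) : F5 P z = true := by
  have h1 := W1_supp (mix_supp h).1
  exact F4_eq_true.mpr (Or.inr (by omega))

theorem F5_of_mix_V0 (hD : D ≤ n) {P : PB n m K → Bool} {z : TB n m → Bool}
    (h : mix K (V0 n D) P z ≠ 0) : F5 P z = false := by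
  obtain ⟨h1, h2⟩ := mix_supp h
  have h3 := V0_supp hD h1
  refine F4_eq_false.mpr ⟨fun v j hj => ?_, h3⟩
  obtain ⟨ω, hω⟩ := h2 v j hj
  rw [hω]
  exact good_inp (Or.inl h3) ω

theorem mix_inactive (W : (Fin (4 * n) → Finset (Fin m)) → ℝ) {P : PB n m K → Bool}
    (z : TB n m → Bool) (h : ∀ c, ∃ k, P (c, k) = true) :
    mix K W P z = W (fun _ => ∅) *
      (1 / (2 ^ K - 1) * (1 / 2 ^ Fintype.card (GCell n m n))) ^ Fintype.card (Slot n m) := by
  have h1 : actv P = fun _ => ∅ := by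
    funext v
    rw [actv, filter_eq_empty_iff]
    intro j _ hj
    obtain ⟨k, hk⟩ := h (v, j)
    rw [hj k] at hk
    exact Bool.false_ne_true hk
  rw [mix_eq, h1, ← card_univ (α := Slot n m), ← prod_const]
  congr 1
  refine prod_congr rfl fun c _ => ?_
  unfold kap
  have h2 : ¬ ∀ k, P (c, k) = false := by
    intro h3
    obtain ⟨k, hk⟩ := h c
    rw [h3 k] at hk
    exact Bool.false_ne_true hk
  rw [if_neg (notMem_empty _), if_neg h2]

end Pool.Agent.Lib.MP_ff3ed7_lc.U
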