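import Pool.Agent.Lib.MP_ff3ed7_lc.U.DefsUPP
import Pool.Agent.Lib.MP_ff3ed7_lc.Forster

/-!
Unbounded error protocols give a small sign-rank; changes of the inputs; Forster's theorem for the
sign-rank.
-/

open Finset

namespace Pool.Agent.Lib.MP_ff3ed7_lc.U

variable {X Y X' Y' : Type} {F : X → Y → Bool}

theorem SignRankLE.mono {d e : ℕ} (h : SignRankLE F d) (hde : d ≤ e) : SignRankLE F e := by
  obtain ⟨u, v, huv⟩ := h
  obtain ⟨k, rfl⟩ := Nat.exists_eq_add_of_le hde
  refine ⟨fun x => Fin.append (u x) fun _ : Fin k => 0, fun y => Fin.append (v y) fun _ => 0,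
    fun x y => ?_⟩
  have h1 : ∑ i, (Fin.append (u x) (fun _ : Fin k => (0 : ℝ))) i *
      (Fin.append (v y) (fun _ : Fin k => (0 : ℝ))) i = ∑ i, u x i * v y i := by
    rw [Fin.sum_univ_add]
    simp [Fin.append_left, Fin.append_right]
  rw [h1]
  exact huv x y

theorem SignRankLE.comap {d : ℕ} (h : SignRankLE F d) (f : X' → X) (g : Y' → Y) :
    SignRankLE (fun x y => F (f x) (g y)) d := by
  obtain ⟨u, v, huv⟩ := h
  exact ⟨fun x => u (f x), fun y => v (g y), fun x y => huv (f x) (g y)⟩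

/-- The weighted number of accepting coin tosses of a protocol of cost `c` is a sum of `2 ^ c`
products. -/
theorem prot_rank {R S : Type} [Fintype R] [Fintype S] (P : Prot (X × R) (Y × S)) :
    ∀ (c : ℕ), P.CostLE c → ∀ (f : X × R → ℝ) (g : Y × S → ℝ),
      ∃ (a : X → Fin (2 ^ c) → ℝ) (b : Y → Fin (2 ^ c) → ℝ), ∀ x y,
        ∑ ρ, ∑ σ, f (x, ρ) * g (y, σ) * (if P.eval (x, ρ) (y, σ) = true then 1 else 0) =
          ∑ i, a x i * b y i := by
  induction P with
  | leaf s =>
    intro c _ f g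
    have h0 : 0 < 2 ^ c := by positivity
    refine ⟨fun x i => if i = ⟨0, h0⟩ then ∑ ρ, f (x, ρ) else 0,
      fun y _ => if s = true then ∑ σ, g (y, σ) else 0, fun x y => ?_⟩
    simp only [Prot.eval, ite_mul, zero_mul, sum_ite_eq', mem_univ, if_true]
    cases s
    · simp
    · simp only [if_true, mul_one]
      rw [sum_mul_sum]
  | alice s next ih =>
    intro c hc f g
    obtain ⟨hc0, hc⟩ := hc
    obtain ⟨a1, b1, h1⟩ := ih true (c - 1) (hc true) (fun p => if s p = true then f p else 0) g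
    obtain ⟨a0, b0, h0⟩ := ih false (c - 1) (hc false) (fun p => if s p = true then 0 else f p) g
    have e : 2 ^ c = 2 ^ (c - 1) + 2 ^ (c - 1) := by
      rw [← two_mul, ← pow_succ']
      congr 1
      omega
    rw [e]
    refine ⟨fun x => Fin.append (a1 x) (a0 x), fun y => Fin.append (b1 y) (b0 y), fun x y => ?_⟩
    rw [Fin.sum_univ_add]
    simp only [Fin.append_left, Fin.append_right]
    rw [← h1, ← h0, ← sum_add_distrib]
    refine sum_congr rfl fun ρ _ => ?_
    rw [← sum_add_distrib]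
    refine sum_congr rfl fun σ _ => ?_
    cases hs : s (x, ρ) <;> simp [Prot.eval, hs]
  | bob s next ih =>
    intro c hc f g
    obtain ⟨hc0, hc⟩ := hc
    obtain ⟨a1, b1, h1⟩ := ih true (c - 1) (hc true) f fun p => if s p = true then g p else 0
    obtain ⟨a0, b0, h0⟩ := ih false (c - 1) (hc false) f fun p => if s p = true then 0 else g p
    have e : 2 ^ c = 2 ^ (c - 1) + 2 ^ (c - 1) := by
      rw [← two_mul, ← pow_succ']
      congr 1
      omega
    rw [e]
    refine ⟨fun x => Fin.append (a1 x) (a0 x), fun y => Fin.append (b1 y) (b0 y), fun x y => ?_⟩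
    rw [Fin.sum_univ_add]
    simp only [Fin.append_left, Fin.append_right]
    rw [← h1, ← h0, ← sum_add_distrib]
    refine sum_congr rfl fun ρ _ => ?_
    rw [← sum_add_distrib]
    refine sum_congr rfl fun σ _ => ?_
    cases hs : s (y, σ) <;> simp [Prot.eval, hs]

theorem HasUPPcc.signRank {c : ℕ} (h : HasUPPcc F c) : SignRankLE F (2 ^ c + 1) := by
  obtain ⟨r, s, P, hc, hP⟩ := h
  obtain ⟨a, b, hab⟩ := prot_rank P c hc (fun _ => 1) fun _ => 1
  have key : ∀ x y, ∑ i, a x i * b y i =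
      (Nat.card {ρ : (Fin r → Bool) × (Fin s → Bool) // P.eval (x, ρ.1) (y, ρ.2) = true} : ℝ) := by
    intro x y
    rw [← hab, Nat.card_eq_fintype_card, Fintype.card_subtype, ← sum_boole, Fintype.sum_prod_type]
    simp
  have tot : ∀ x y,
      Nat.card {ρ : (Fin r → Bool) × (Fin s → Bool) // P.eval (x, ρ.1) (y, ρ.2) = true} +
      Nat.card {ρ : (Fin r → Bool) × (Fin s → Bool) // P.eval (x, ρ.1) (y, ρ.2) = false} =
        2 ^ (r + s) := by
    intro x y
    rw [Nat.card_eq_fintype_card, Nat.card_eq_fintype_card, Fintype.card_subtype,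
      Fintype.card_subtype]
    have h1 := card_filter_add_card_filter_not (s := (univ : Finset ((Fin r → Bool) × (Fin s → Bool))))
      (fun ρ => P.eval (x, ρ.1) (y, ρ.2) = true)
    simp only [Bool.not_eq_true] at h1
    rw [h1]
    simp [pow_add]
  refine ⟨fun x => Fin.snoc (a x) 1, fun y => Fin.snoc (b y) (-(2 ^ (r + s) / 2)), fun x y => ?_⟩
  rw [Fin.sum_univ_castSucc]
  simp only [Fin.snoc_castSucc, Fin.snoc_last]
  rw [key]
  have h1 := tot x y
  have h2 := hP x y
  constructor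
  · intro hF
    rw [hF] at h2
    have h3 : (2 : ℝ) ^ (r + s) < 2 * (Nat.card {ρ : (Fin r → Bool) × (Fin s → Bool) //
        P.eval (x, ρ.1) (y, ρ.2) = true} : ℝ) := by exact_mod_cast h2
    linarith
  · intro hF
    rw [hF] at h2
    have h3 : 2 * Nat.card {ρ : (Fin r → Bool) × (Fin s → Bool) //
        P.eval (x, ρ.1) (y, ρ.2) = true} < 2 ^ (r + s) := by omega
    have h4 : 2 * (Nat.card {ρ : (Fin r → Bool) × (Fin s → Bool) //
        P.eval (x, ρ.1) (y, ρ.2) = true} : ℝ) < 2 ^ (r + s) := by exact_mod_cast h3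
    linarith

/-- Forster's theorem for the sign-rank. -/
theorem SignRankLE.forster [Fintype X] [Fintype Y] {A : X → Y → ℝ}
    (h1 : ∀ x y, F x y = true → 0 ≤ A x y) (h0 : ∀ x y, F x y = false → A x y ≤ 0)
    {γ : ℝ} (hγ : 0 ≤ γ) (E : Finset (X × Y)) (hE : ∀ x y, (x, y) ∉ E → γ ≤ |A x y|)
    {B : ℝ} (hB0 : 0 ≤ B)
    (hB : ∀ (a : X → ℝ) (b : Y → ℝ),
      (∑ x, ∑ y, A x y * a x * b y) ^ 2 ≤ B ^ 2 * (∑ x, a x ^ 2) * ∑ y, b y ^ 2)
    {d : ℕ} (hd : SignRankLE F d) :
    γ * (Fintype.card X * Fintype.card Y) ≤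
      d * (B * √(Fintype.card X * Fintype.card Y) + γ * E.card) := by
  obtain ⟨u, v, huv⟩ := hd
  refine Forster.forster u v A (fun x y => ?_) (fun x y => ?_) E hγ hE hB0 fun f g => ?_
  · cases hF : F x y
    · exact ((huv x y).2 hF).ne
    · exact ((huv x y).1 hF).ne'
  · cases hF : F x y
    · exact mul_nonneg_of_nonpos_of_nonpos (h0 x y hF) ((huv x y).2 hF).le
    · exact mul_nonneg (h1 x y hF) ((huv x y).1 hF).le
  · refine (le_abs_self _).trans ?_
    rw [← Real.sqrt_sq_eq_abs]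
    refine (Real.sqrt_le_sqrt (hB f g)).trans (le_of_eq ?_)
    rw [Real.sqrt_mul (by positivity), Real.sqrt_mul (sq_nonneg _), Real.sqrt_sq hB0]

end Pool.Agent.Lib.MP_ff3ed7_lc.U
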