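import Pool.Agent.Lib.MP_ff3ed7_lc.Pattern

/-!
Lower bounds for `PP` and Merlin-Arthur communication protocols from weights.  The proofs are those
of `HasExactDual.ppcc` and `HasExactDual.macc` in `Pattern.lean` with `Z` instead of `8 ^ |ι|` and
`B ^ 2 = Z ^ 2 * (9 / 2 ^ D)`.
-/

open Finset

namespace Pool.Agent.Lib.MP_ff3ed7_lc.U

variable {X Y : Type} [Fintype X] [Fintype Y] {F : X → Y → Bool} {D : ℕ}

/-- Weights which have total mass `Z` on the ones and on the zeros of `F` and have small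
correlation with the rectangles. -/
def HasWeights (F : X → Y → Bool) (D : ℕ) : Prop :=
  ∃ (w : X → Y → ℝ) (Z B : ℝ), 0 < Z ∧ B ^ 2 = Z ^ 2 * (9 / 2 ^ D) ∧ Bd w B (fun _ _ => 1) ∧
    ∀ (G : X → Y → ℝ) (u l : ℝ), (∀ x y, F x y = true → u ≤ G x y) →
      (∀ x y, F x y = false → G x y ≤ l) → Z * (u - l) ≤ ∑ x, ∑ y, w x y * G x y

theorem HasWeights.ppcc (h : HasWeights F D) {p c : ℕ} (hp : HasPPcc F p c) :
    D ≤ 2 * (p + c) + 3 := by
  obtain ⟨w, Z, B, hZ, hB, hw, hG⟩ := h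
  obtain ⟨r, P, hc, h1, h0⟩ := hp
  have hB0 := hw.nonneg
  have h2 := hG (fun x y => prob r fun ρ => (P ρ).eval x y = true) _ _ h1 h0
  have h3 : ∑ x, ∑ y, w x y * (∑ ρ, (fun _ _ => 1) x y * indb ((P ρ).eval x y)) ≤
      Fintype.card (Fin r → Bool) * (2 ^ c * B) := Bd.sum fun ρ => hw.prot (P ρ) c (hc ρ)
  have h4 : ∑ x, ∑ y, w x y * (prob r fun ρ => (P ρ).eval x y = true) =
      (∑ x, ∑ y, w x y * (∑ ρ, (fun _ _ => 1) x y * indb ((P ρ).eval x y))) / 2 ^ r := by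
    rw [Finset.sum_div]
    refine Finset.sum_congr rfl fun x _ => ?_
    rw [Finset.sum_div]
    refine Finset.sum_congr rfl fun y _ => ?_
    rw [prob_eq, mul_div_assoc]
    simp
  have h5 : Z * (1 / 2 : ℝ) ^ p ≤ 2 ^ c * B := by
    have h6 : (1 / 2 + (1 / 2 : ℝ) ^ p - 1 / 2) = (1 / 2) ^ p := by ring
    rw [h6, h4] at h2
    refine h2.trans ?_
    rw [div_le_iff₀ (by positivity), mul_comm (2 ^ c * B)]
    simpa using h3
  have h7 : (Z * (1 / 2 : ℝ) ^ p) ^ 2 ≤ (2 ^ c * B) ^ 2 :=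
    pow_le_pow_left₀ (by positivity) h5 2
  rw [mul_pow, mul_pow, hB] at h7
  have h8 : ((1 / 2 : ℝ) ^ p) ^ 2 ≤ (2 ^ c) ^ 2 * (9 / 2 ^ D) := by
    have : (0 : ℝ) < Z ^ 2 := by positivity
    refine le_of_mul_le_mul_left ?_ this
    linarith
  have h9 : (2 : ℝ) ^ D < 2 ^ (2 * (p + c) + 4) := by
    have h10 : (1 / 2 : ℝ) ^ p = 1 / 2 ^ p := by rw [div_pow, one_pow]
    rw [h10, div_pow, one_pow, ← mul_div_assoc, div_le_div_iff₀ (by positivity) (by positivity)]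
      at h8
    have h11 : (0 : ℝ) < 2 ^ (2 * (p + c)) := by positivity
    calc (2 : ℝ) ^ D = 1 * 2 ^ D := (one_mul _).symm
      _ ≤ _ := h8
      _ = 2 ^ (2 * (p + c)) * 9 := by ring
      _ < 2 ^ (2 * (p + c)) * 16 := by linarith
      _ = 2 ^ (2 * (p + c) + 4) := by ring
  have h12 := (pow_lt_pow_iff_right₀ (by norm_num : (1 : ℝ) < 2)).mp h9
  omega

theorem HasWeights.macc (h : HasWeights F D) {p c : ℕ} (hp : HasMAcc F p c) :
    D < 2 * (p + 2) * (c + 2) := by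
  obtain ⟨w, Z, B, hZ, hB, hw, hG⟩ := h
  obtain ⟨r, P, hc, h1, h0⟩ := hp
  have hB0 := hw.nonneg
  set k := p + 2 with hk
  have hpr : ∀ (x y) (m), 0 ≤ prob r fun ρ => (P m ρ).eval x y = true := by
    intro x y m
    unfold prob
    positivity
  have h2 := hG (fun x y => ∑ m, (prob r fun ρ => (P m ρ).eval x y = true) ^ k)
    ((2 / 3) ^ k) (2 ^ p * (1 / 3) ^ k) (by
      intro x y hxy
      obtain ⟨m, hm⟩ := h1 x y hxy
      refine (pow_le_pow_left₀ (by norm_num) hm k).trans ?_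
      exact Finset.single_le_sum (f := fun m => (prob r fun ρ => (P m ρ).eval x y = true) ^ k)
        (fun m _ => pow_nonneg (hpr x y m) k) (Finset.mem_univ m)) (by
      intro x y hxy
      calc ∑ m, (prob r fun ρ => (P m ρ).eval x y = true) ^ k ≤
            ∑ m : Fin p → Bool, (1 / 3 : ℝ) ^ k := Finset.sum_le_sum fun m _ =>
              pow_le_pow_left₀ (hpr x y m) (h0 x y hxy m) k
        _ = 2 ^ p * (1 / 3) ^ k := by simp)
  have h3 : ∑ x, ∑ y, w x y * (∑ mρ : (Fin p → Bool) × (Fin k → Fin r → Bool),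
      ∏ i, indb ((P mρ.1 (mρ.2 i)).eval x y)) ≤
      Fintype.card ((Fin p → Bool) × (Fin k → Fin r → Bool)) * (2 ^ (k * c) * B) :=
    Bd.sum fun mρ => hw.prods k (fun i => P mρ.1 (mρ.2 i)) fun i => hc _ _
  have h4 : ∑ x, ∑ y, w x y * (∑ m, (prob r fun ρ => (P m ρ).eval x y = true) ^ k) =
      (∑ x, ∑ y, w x y * (∑ mρ : (Fin p → Bool) × (Fin k → Fin r → Bool),
        ∏ i, indb ((P mρ.1 (mρ.2 i)).eval x y))) / 2 ^ (r * k) := by
    rw [Finset.sum_div]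
    refine Finset.sum_congr rfl fun x _ => ?_
    rw [Finset.sum_div]
    refine Finset.sum_congr rfl fun y _ => ?_
    rw [mul_div_assoc]
    congr 1
    rw [Fintype.sum_prod_type, Finset.sum_div]
    exact Finset.sum_congr rfl fun m _ => prob_pow_cc r k _
  have h5 : Z * ((2 / 3 : ℝ) ^ k - 2 ^ p * (1 / 3) ^ k) ≤ 2 ^ p * (2 ^ (k * c) * B) := by
    rw [h4] at h2
    refine h2.trans ?_
    rw [div_le_iff₀ (by positivity)]
    refine h3.trans (le_of_eq ?_)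
    simp only [Fintype.card_prod, Fintype.card_fun, Fintype.card_fin, Fintype.card_bool]
    push_cast
    rw [← pow_mul]
    ring
  have h6 : (2 / 3 : ℝ) ^ k - 2 ^ p * (1 / 3) ^ k = 2 ^ p * (3 * (1 / 3) ^ k) := by
    rw [hk]
    have : (2 / 3 : ℝ) ^ (p + 2) = 2 ^ (p + 2) * (1 / 3) ^ (p + 2) := by
      rw [← mul_pow]
      norm_num
    rw [this]
    ring
  have h7 : Z * (3 * (1 / 3 : ℝ) ^ k) ≤ 2 ^ (k * c) * B := by
    rw [h6] at h5
    have : (0 : ℝ) < 2 ^ p := by positivity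
    refine le_of_mul_le_mul_left ?_ this
    linarith
  have h8 : (Z * (3 * (1 / 3 : ℝ) ^ k)) ^ 2 ≤ (2 ^ (k * c) * B) ^ 2 :=
    pow_le_pow_left₀ (by positivity) h7 2
  rw [mul_pow, mul_pow _ B, hB] at h8
  have h9 : (3 * (1 / 3 : ℝ) ^ k) ^ 2 ≤ (2 ^ (k * c)) ^ 2 * (9 / 2 ^ D) := by
    have : (0 : ℝ) < Z ^ 2 := by positivity
    refine le_of_mul_le_mul_left ?_ this
    linarith
  -- `(3 * (1 / 3) ^ k) ^ 2 = 9 ^ (-(p + 1)) ≥ (9 / 8) * (1 / 2) ^ (4 k - 4 + ...)`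
  have h10 : (9 / 8 : ℝ) * (1 / 4) ^ (2 * k - 2) ≤ (3 * (1 / 3 : ℝ) ^ k) ^ 2 := by
    have e1 : k = (p + 1) + 1 := rfl
    have e2 : 2 * k - 2 = 2 * (p + 1) := by omega
    have e3 : 3 * (1 / 3 : ℝ) ^ k = (1 / 3) ^ (p + 1) := by
      rw [e1, pow_succ]
      ring
    rw [e2, e3, ← pow_mul, mul_comm (p + 1) 2, pow_mul, pow_mul]
    have e4 : ∀ m : ℕ, (9 / 8 : ℝ) * ((1 / 4) ^ 2) ^ (m + 1) ≤ ((1 / 3) ^ 2) ^ (m + 1) := by
      intro m
      induction m with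
      | zero => norm_num
      | succ m ih =>
        rw [pow_succ _ (m + 1), pow_succ _ (m + 1)]
        have : (0 : ℝ) < ((1 / 4) ^ 2) ^ (m + 1) := by positivity
        nlinarith
    exact e4 p
  have h11 : (2 : ℝ) ^ D ≤ 2 ^ (2 * (k * c) + 3 + 2 * (2 * k - 2)) := by
    have h12 := h10.trans h9
    have h13 : (1 / 4 : ℝ) ^ (2 * k - 2) = 1 / 2 ^ (2 * (2 * k - 2)) := by
      rw [div_pow, one_pow, pow_mul]
      norm_num
    have h15 : (0 : ℝ) < 2 ^ (2 * (2 * k - 2)) := by positivity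
    have h16 : (0 : ℝ) < 2 ^ D := by positivity
    rw [h13, ← mul_div_assoc, ← mul_div_assoc, div_le_div_iff₀ h15 h16] at h12
    have h17 : (2 : ℝ) ^ (2 * (k * c) + 3 + 2 * (2 * k - 2)) =
        8 * ((2 ^ (k * c)) ^ 2 * 2 ^ (2 * (2 * k - 2))) := by
      rw [pow_add, pow_add, mul_comm 2 (k * c), pow_mul _ (k * c) 2]
      ring
    rw [h17]
    nlinarith
  have h14 : D ≤ 2 * (k * c) + 3 + 2 * (2 * k - 2) :=
    (pow_le_pow_iff_right₀ (by norm_num : (1 : ℝ) < 2)).mp h11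
  have h15 : 2 * k * (c + 2) = 2 * (k * c) + 4 * k := by ring
  rw [h15]
  omega

end Pool.Agent.Lib.MP_ff3ed7_lc.U
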