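import Pool.Agent.Lib.MP_ff3ed7_lc.U.Norm
import Pool.Agent.Lib.MP_ff3ed7_lc.U.UPP
import Pool.Agent.Lib.MP_ff3ed7_lc.U.Weights
import Pool.Agent.Lib.MP_ff3ed7_lc.U.DualB
import Pool.Agent.Lib.MP_ff3ed7_lc.U.DualC

/-!
The matrix of the signed measure, and its consequences.
-/

open Finset

namespace Pool.Agent.Lib.MP_ff3ed7_lc.U

variable {n m K D : ℕ}

section count

variable {p t : Type} [Fintype p] [DecidableEq p] [Fintype t] [DecidableEq t]

/-- The sum over all inputs of the two players of a function of the gadgets. -/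
theorem sum_gadgets (φ : (p → Bool) → (t → Bool) → ℝ) :
    ∑ x : (p → Bool) × (t → Bool × Bool), ∑ y : (p → Bool) × (t → Bool × Bool),
      φ (fun i => xor (x.1 i) (y.1 i)) (sel x.2 y.2) =
      2 ^ Fintype.card p * 8 ^ Fintype.card t * ∑ P, ∑ z, φ P z := by
  have h1 : ∀ (xP : p → Bool) (z : t → Bool), ∑ yP : p → Bool, φ (fun i => xor (xP i) (yP i)) z =
      ∑ P, φ P z := by
    intro xP z
    refine Fintype.sum_equiv ⟨fun w i => xor (xP i) (w i), fun w i => xor (xP i) (w i),
      fun w => ?_, fun w => ?_⟩ _ _ fun w => rfl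
    · funext i; simp
    · funext i; simp
  calc _ = ∑ xP : p → Bool, ∑ xt : t → Bool × Bool, ∑ yt : t → Bool × Bool, ∑ yP : p → Bool,
        φ (fun i => xor (xP i) (yP i)) (sel xt yt) := by
        rw [Fintype.sum_prod_type]
        refine sum_congr rfl fun xP _ => sum_congr rfl fun xt _ => ?_
        rw [Fintype.sum_prod_type, sum_comm]
    _ = ∑ xP : p → Bool, ∑ xt : t → Bool × Bool, ∑ yt : t → Bool × Bool, ∑ P,
        φ P (sel xt yt) := by
        refine sum_congr rfl fun xP _ => sum_congr rfl fun xt _ => sum_congr rfl fun yt _ => ?_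
        exact h1 xP _
    _ = ∑ xP : p → Bool, 8 ^ Fintype.card t * ∑ z, ∑ P, φ P z := by
        refine sum_congr rfl fun xP _ => ?_
        exact sum_sel fun z => ∑ P, φ P z
    _ = _ := by
        rw [sum_const, card_univ, Fintype.card_fun, Fintype.card_bool, nsmul_eq_mul,
          sum_comm (s := (univ : Finset (t → Bool)))]
        push_cast
        ring

end count

/-- The matrix with the entries `mix K W`. -/
noncomputable def mat (W : (Fin (4 * n) → Finset (Fin m)) → ℝ) (x y : Inp n m K) : ℝ :=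
  mix K W (fun i => xor (x.1 i) (y.1 i)) (sel x.2 y.2)

theorem card_inp : Fintype.card (Inp n m K) =
    2 ^ Fintype.card (PB n m K) * 4 ^ Fintype.card (TB n m) := by
  have h : Fintype.card (Bool × Bool) = 4 := by simp
  rw [Fintype.card_prod, Fintype.card_fun, Fintype.card_fun, h, Fintype.card_bool]

/-- The total mass. -/
noncomputable def Zt (n m K : ℕ) : ℝ := 2 ^ Fintype.card (PB n m K) * 8 ^ Fintype.card (TB n m)

theorem Zt_pos : 0 < Zt n m K := by
  unfold Zt
  positivity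

theorem sum_mat (W : (Fin (4 * n) → Finset (Fin m)) → ℝ) (hK : 1 ≤ K) :
    ∑ x : Inp n m K, ∑ y, mat W x y = Zt n m K * ∑ T, W T := by
  unfold mat
  rw [sum_gadgets fun P z => mix K W P z, sum_mix W hK]
  rfl

theorem sum_V0 (hm : ∀ t ∈ nds n, t ≤ m) :
    ∑ T : Fin (4 * n) → Finset (Fin m), V0 n D T = 1 := by
  have h1 := V0_junta (d := n) (D := D) (n := n) (m := m) (fun _ => ∅) (by simp) fun _ => 1
  simp only [mul_one] at h1
  rw [h1]
  exact sum_W (sum_w0 hm)

theorem norm_mat (hn : 1 ≤ n) (hK : 3 ≤ K) (hm : ∀ t ∈ nds n, 2 * t ≤ m) (hD : 9 * D ≤ n)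
    (a b : Inp n m K → ℝ) :
    (∑ x, ∑ y, (mat (W1 n) x y - mat (V0 n D) x y) * a x * b y) ^ 2 ≤
      9 / 2 ^ D * 4 ^ Fintype.card (TB n m) * (∑ x, a x ^ 2) * ∑ y, b y ^ 2 :=
  mixed_bound (fun P z => mix K (W1 n) P z - mix K (V0 n D) P z) (9 / 2 ^ D)
    (fun U S => fourier_le hn hK hm hD U S) a b

theorem FF_of_W1 (hn : 1 ≤ n) {x y : Inp n m K} (h : mat (W1 n) x y ≠ 0) : FF x y = true :=
  F5_of_mix_W1 hn h

theorem FF_of_V0 (hD : D ≤ n) {x y : Inp n m K} (h : mat (V0 n D) x y ≠ 0) : FF x y = false :=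
  F5_of_mix_V0 hD h

theorem hasWeights (hn : 1 ≤ n) (hK : 3 ≤ K) (hm : ∀ t ∈ nds n, 2 * t ≤ m) (hD : 9 * D ≤ n) :
    HasWeights (FF : Inp n m K → Inp n m K → Bool) D := by
  have hm' : ∀ t ∈ nds n, t ≤ m := fun t ht => by have := hm t ht; omega
  have hsq : (√(9 / 2 ^ D) : ℝ) ^ 2 = 9 / 2 ^ D := Real.sq_sqrt (by positivity)
  refine ⟨fun x y => mat (W1 n) x y - mat (V0 n D) x y, Zt n m K, Zt n m K * √(9 / 2 ^ D), Zt_pos,
    ?_, ?_, ?_⟩
  · rw [mul_pow, hsq]
  · intro a b ha hb
    have h1 := norm_mat hn hK hm hD a b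
    have h2 : ∀ c : Inp n m K → ℝ, (∀ x, c x ^ 2 ≤ 1) →
        ∑ x, c x ^ 2 ≤ 2 ^ Fintype.card (PB n m K) * 4 ^ Fintype.card (TB n m) := by
      intro c hc
      calc ∑ x, c x ^ 2 ≤ ∑ _x : Inp n m K, (1 : ℝ) := sum_le_sum fun x _ => hc x
        _ = _ := by
          rw [sum_const, card_univ, card_inp, nsmul_eq_mul, mul_one]
          push_cast
          ring
    have h3 : (∑ x, ∑ y, (mat (W1 n) x y - mat (V0 n D) x y) * 1 * a x * b y) ^ 2 ≤
        (Zt n m K * √(9 / 2 ^ D)) ^ 2 := by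
      simp only [mul_one]
      refine h1.trans ?_
      rw [mul_pow, hsq]
      calc 9 / 2 ^ D * 4 ^ Fintype.card (TB n m) * (∑ x, a x ^ 2) * ∑ y, b y ^ 2
          ≤ 9 / 2 ^ D * 4 ^ Fintype.card (TB n m) *
            (2 ^ Fintype.card (PB n m K) * 4 ^ Fintype.card (TB n m)) *
            (2 ^ Fintype.card (PB n m K) * 4 ^ Fintype.card (TB n m)) := by
            gcongr
            · exact h2 a ha
            · exact h2 b hb
        _ = _ := by
            unfold Zt
            have e : (8 : ℝ) ^ Fintype.card (TB n m) * 8 ^ Fintype.card (TB n m) =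
                4 ^ Fintype.card (TB n m) * 4 ^ Fintype.card (TB n m) *
                  4 ^ Fintype.card (TB n m) := by
              rw [← mul_pow, ← mul_pow, ← mul_pow]
              norm_num
            rw [mul_pow, sq (8 ^ Fintype.card (TB n m) : ℝ), e]
            ring
    exact abs_le_of_sq_le_sq h3 (mul_nonneg Zt_pos.le (Real.sqrt_nonneg _))
  · intro G u l hu hl
    have h1 : Zt n m K * u ≤ ∑ x : Inp n m K, ∑ y, mat (W1 n) x y * G x y := by
      have e : Zt n m K * u = ∑ x : Inp n m K, ∑ y, mat (W1 n) x y * u := by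
        simp_rw [← sum_mul]
        rw [sum_mat _ (by omega), show ∑ T : Fin (4 * n) → Finset (Fin m), W1 n T = 1 from
          sum_W (sum_w1 hm'), mul_one]
      rw [e]
      refine sum_le_sum fun x _ => sum_le_sum fun y _ => ?_
      by_cases h0 : mat (W1 n) x y = 0
      · rw [h0, zero_mul, zero_mul]
      · exact mul_le_mul_of_nonneg_left (hu x y (FF_of_W1 hn h0))
          (mix_nonneg W1_nonneg (by omega) _ _)
    have h2 : ∑ x : Inp n m K, ∑ y, mat (V0 n D) x y * G x y ≤ Zt n m K * l := by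
      have e : Zt n m K * l = ∑ x : Inp n m K, ∑ y, mat (V0 n D) x y * l := by
        simp_rw [← sum_mul]
        rw [sum_mat _ (by omega), sum_V0 hm', mul_one]
      rw [e]
      refine sum_le_sum fun x _ => sum_le_sum fun y _ => ?_
      by_cases h0 : mat (V0 n D) x y = 0
      · rw [h0, zero_mul, zero_mul]
      · exact mul_le_mul_of_nonneg_left (hl x y (FF_of_V0 (by omega) h0))
          (mix_nonneg (V0_nonneg hm' hD) (by omega) _ _)
    simp_rw [sub_mul, sum_sub_distrib]
    linarith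

/-! ### The sign-rank -/

/-- The pairs of inputs with an active slot. -/
noncomputable def Ex (n m K : ℕ) : Finset (Inp n m K × Inp n m K) := by
  classical
  exact univ.filter fun q => ∃ c, ∀ k, q.1.1 (c, k) = q.2.1 (c, k)

theorem card_Ex_le :
    (Ex n m K).card * 2 ^ K ≤
      Fintype.card (Slot n m) * (Fintype.card (Inp n m K) * Fintype.card (Inp n m K)) := by
  classical
  have h1 : ∀ c : Slot n m, (univ.filter fun q : Inp n m K × Inp n m K =>
      ∀ k, q.1.1 (c, k) = q.2.1 (c, k)).card * 2 ^ K ≤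
      Fintype.card (Inp n m K) * Fintype.card (Inp n m K) := by
    intro c
    have e1 : (2 : ℕ) ^ K = (univ : Finset (Fin K → Bool)).card := by simp
    have e2 : Fintype.card (Inp n m K) * Fintype.card (Inp n m K) =
        (univ : Finset (Inp n m K × Inp n m K)).card := by
      rw [card_univ, Fintype.card_prod (Inp n m K) (Inp n m K)]
    rw [e1, e2, ← card_product]
    refine card_le_card_of_injOn (fun r => (r.1.1, (fun i => if i.1 = c then
      xor (r.1.2.1 i) (r.2 i.2) else r.1.2.1 i, r.1.2.2))) (fun _ _ => mem_coe.mpr (mem_univ _)) ?_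
    rintro ⟨⟨x, y⟩, κ⟩ h ⟨⟨x', y'⟩, κ'⟩ h' heq
    simp only [coe_product, Set.mem_prod, mem_coe, mem_filter, mem_univ, true_and, and_true]
      at h h'
    simp only [Prod.mk.injEq] at heq
    obtain ⟨hx, hy1, hy2⟩ := heq
    subst hx
    have hκ : κ = κ' := by
      funext k
      have h3 := congrFun hy1 (c, k)
      simp only [if_true] at h3
      rw [← h k, ← h' k] at h3
      have : ∀ a b b' : Bool, xor a b = xor a b' → b = b' := by decide
      exact this _ _ _ h3
    subst hκ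
    have hy : y = y' := by
      refine Prod.ext (funext fun i => ?_) hy2
      have h3 := congrFun hy1 i
      by_cases hi : i.1 = c
      · simp only [if_pos hi] at h3
        have : ∀ a b b' : Bool, xor b a = xor b' a → b = b' := by decide
        exact this _ _ _ h3
      · simpa only [if_neg hi] using h3
    rw [hy]
  have h2 : Ex n m K = univ.biUnion fun c : Slot n m => univ.filter fun q : Inp n m K × Inp n m K =>
      ∀ k, q.1.1 (c, k) = q.2.1 (c, k) := by
    ext q
    simp [Ex]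
  rw [h2]
  calc _ ≤ (∑ c : Slot n m, (univ.filter fun q : Inp n m K × Inp n m K =>
      ∀ k, q.1.1 (c, k) = q.2.1 (c, k)).card) * 2 ^ K := Nat.mul_le_mul_right _ card_biUnion_le
    _ = ∑ c : Slot n m, (univ.filter fun q : Inp n m K × Inp n m K =>
      ∀ k, q.1.1 (c, k) = q.2.1 (c, k)).card * 2 ^ K := sum_mul _ _ _
    _ ≤ ∑ _c : Slot n m, Fintype.card (Inp n m K) * Fintype.card (Inp n m K) :=
        sum_le_sum fun c _ => h1 c
    _ = _ := by
      rw [sum_const, card_univ, smul_eq_mul]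

theorem W1_empty (hn : 1 ≤ n) : W1 n (fun _ : Fin (4 * n) => (∅ : Finset (Fin m))) = 0 := by
  unfold W1
  exact prod_eq_zero (mem_univ (⟨0, by omega⟩ : Fin (4 * n))) (w1_empty n)

/-- The lower bound for the sign-rank. -/
theorem signRank_ge (hn : 1 ≤ n) (hK : 3 ≤ K) (hm : ∀ t ∈ nds n, 2 * t ≤ m) (hD : 9 * D ≤ n)
    {d : ℕ} (hd : SignRankLE (FF : Inp n m K → Inp n m K → Bool) d) :
    V0 n D (fun _ : Fin (4 * n) => (∅ : Finset (Fin m))) ≤
      d * (√(9 / 2 ^ D) + V0 n D (fun _ : Fin (4 * n) => (∅ : Finset (Fin m))) *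
        (Fintype.card (Slot n m) / 2 ^ K)) := by
  have hm' : ∀ t ∈ nds n, t ≤ m := fun t ht => by have := hm t ht; omega
  set v0 := V0 n D (fun _ : Fin (4 * n) => (∅ : Finset (Fin m))) with hv0
  have hv0n : 0 ≤ v0 := V0_nonneg hm' hD _
  set p := Fintype.card (PB n m K) with hp
  set t := Fintype.card (TB n m) with ht
  have hsq : (√(9 / 2 ^ D) : ℝ) ^ 2 = 9 / 2 ^ D := Real.sq_sqrt (by positivity)
  have key := SignRankLE.forster (F := (FF : Inp n m K → Inp n m K → Bool))
    (A := fun x y => mat (W1 n) x y - mat (V0 n D) x y)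
    (fun x y h => by
      have h1 : mat (V0 n D) x y = 0 := by
        by_contra h2
        rw [FF_of_V0 (by omega) h2] at h
        exact Bool.false_ne_true h
      rw [h1, sub_zero]
      exact mix_nonneg W1_nonneg (by omega) _ _)
    (fun x y h => by
      have h1 : mat (W1 n) x y = 0 := by
        by_contra h2
        rw [FF_of_W1 hn h2] at h
        exact Bool.false_ne_true h.symm
      rw [h1, zero_sub]
      exact neg_nonpos_of_nonneg (mix_nonneg (V0_nonneg hm' hD) (by omega) _ _))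
    (γ := v0 / (2 ^ p * 2 ^ t)) (by positivity) (Ex n m K)
    (fun x y h => by
      have h1 : ∀ c, ∃ k, (fun i => xor (x.1 i) (y.1 i)) (c, k) = true := by
        intro c
        by_contra hcon
        push Not at hcon
        apply h
        simp only [Ex, mem_filter, mem_univ, true_and]
        refine ⟨c, fun k => ?_⟩
        have := hcon k
        simpa using this
      unfold mat
      rw [mix_inactive _ _ h1, mix_inactive _ _ h1, W1_empty hn, zero_mul, zero_sub, abs_neg,
        ← hv0]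
      have h2K : (2 : ℝ) ^ 1 ≤ 2 ^ K := pow_le_pow_right₀ (by norm_num) (by omega)
      have h3 : (0 : ℝ) < 2 ^ K - 1 := by linarith
      rw [abs_of_nonneg (by positivity), div_eq_mul_one_div]
      refine mul_le_mul_of_nonneg_left ?_ hv0n
      have e1 : (2 : ℝ) ^ p * 2 ^ t =
          (2 ^ K * 2 ^ Fintype.card (GCell n m n)) ^ Fintype.card (Slot n m) := by
        rw [mul_pow, ← pow_mul, ← pow_mul, hp, ht]
        rw [Fintype.card_prod (Slot n m) (Fin K), Fintype.card_prod (Slot n m) (GCell n m n),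
          Fintype.card_fin, mul_comm K, mul_comm (Fintype.card (GCell n m n))]
      rw [e1, ← one_div_pow]
      refine pow_le_pow_left₀ (by positivity) ?_ _
      rw [← one_div_mul_one_div]
      refine mul_le_mul_of_nonneg_right ?_ (by positivity)
      exact one_div_le_one_div_of_le h3 (by linarith))
    (B := √(9 / 2 ^ D) * 2 ^ t) (by positivity)
    (fun a b => by
      refine (norm_mat hn hK hm hD a b).trans (le_of_eq ?_)
      rw [mul_pow, hsq, ← ht]
      congr 3
      rw [← pow_mul, mul_comm t 2, pow_mul]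
      norm_num)
    hd
  have hcard : (Fintype.card (Inp n m K) : ℝ) = 2 ^ p * 4 ^ t := by
    rw [card_inp]
    push_cast
    rfl
  have hE : ((Ex n m K).card : ℝ) * 2 ^ K ≤
      Fintype.card (Slot n m) * ((2 ^ p * 4 ^ t) * (2 ^ p * 4 ^ t)) := by
    rw [← hcard]
    exact_mod_cast card_Ex_le
  rw [hcard, Real.sqrt_mul_self (by positivity)] at key
  have hE' : ((Ex n m K).card : ℝ) ≤
      Fintype.card (Slot n m) / 2 ^ K * ((2 ^ p * 4 ^ t) * (2 ^ p * 4 ^ t)) := by
    rw [div_mul_eq_mul_div, le_div_iff₀ (by positivity)]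
    exact hE
  have e8 : (2 : ℝ) ^ t * 4 ^ t = 8 ^ t := by rw [← mul_pow]; norm_num
  have e16 : (4 : ℝ) ^ t * 4 ^ t = 2 ^ t * 8 ^ t := by rw [← mul_pow, ← mul_pow]; norm_num
  have hpos : (0 : ℝ) < 2 ^ p * 8 ^ t := by positivity
  have l1 : v0 / (2 ^ p * 2 ^ t) * (2 ^ p * 4 ^ t * (2 ^ p * 4 ^ t)) = v0 * (2 ^ p * 8 ^ t) := by
    rw [show (2 : ℝ) ^ p * 4 ^ t * (2 ^ p * 4 ^ t) = 2 ^ p * 2 ^ p * (4 ^ t * 4 ^ t) by ring, e16]
    field_simp
  have l2 : √(9 / 2 ^ D) * 2 ^ t * (2 ^ p * 4 ^ t) = √(9 / 2 ^ D) * (2 ^ p * 8 ^ t) := by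
    rw [← e8]
    ring
  rw [l1, l2] at key
  have l3 : v0 / (2 ^ p * 2 ^ t) * ((Ex n m K).card : ℝ) ≤
      v0 * (Fintype.card (Slot n m) / 2 ^ K) * (2 ^ p * 8 ^ t) := by
    calc v0 / (2 ^ p * 2 ^ t) * ((Ex n m K).card : ℝ) ≤ v0 / (2 ^ p * 2 ^ t) *
          (Fintype.card (Slot n m) / 2 ^ K * ((2 ^ p * 4 ^ t) * (2 ^ p * 4 ^ t))) :=
          mul_le_mul_of_nonneg_left hE' (by positivity)
      _ = Fintype.card (Slot n m) / 2 ^ K *
          (v0 / (2 ^ p * 2 ^ t) * ((2 ^ p * 4 ^ t) * (2 ^ p * 4 ^ t))) := by ring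
      _ = _ := by rw [l1]; ring
  have h5 : v0 * (2 ^ p * 8 ^ t) ≤
      (d * (√(9 / 2 ^ D) + v0 * (Fintype.card (Slot n m) / 2 ^ K))) * (2 ^ p * 8 ^ t) := by
    refine key.trans ?_
    have hd0 : (0 : ℝ) ≤ d := Nat.cast_nonneg _
    calc (d : ℝ) * (√(9 / 2 ^ D) * (2 ^ p * 8 ^ t) + v0 / (2 ^ p * 2 ^ t) * ((Ex n m K).card : ℝ))
        ≤ d * (√(9 / 2 ^ D) * (2 ^ p * 8 ^ t) +
          v0 * (Fintype.card (Slot n m) / 2 ^ K) * (2 ^ p * 8 ^ t)) := by gcongr
      _ = _ := by ring
  exact le_of_mul_le_mul_right h5 hpos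

end Pool.Agent.Lib.MP_ff3ed7_lc.U
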