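import Pool.Agent.Lib.MP_ff3ed7_lc.TotalComm
import Pool.Agent.Lib.MP_ff3ed7_lc.U.Mat
import Pool.Agent.Lib.MP_ff3ed7_lc.U.Card

/-!
Total two-party functions with cheap Arthur-Merlin protocols and large sign-rank.
-/

open Finset

namespace Pool.Agent.Lib.MP_ff3ed7_lc.U

/-- The numerical estimate. -/
theorem numeric {n D k : ℕ} (hD : n < 9 * (D + 1)) {v s : ℝ} (hs : 0 ≤ s)
    (hv : 3 / 8 * (255 / 256 : ℝ) ^ (4 * n) ≤ v) (hv2 : v ≤ 2)
    (hsl : 2 * s ≤ √(1 / 2 ^ D))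
    (h : v ≤ 2 ^ k * (√(9 / 2 ^ D) + v * s)) : n ≤ 31 * (k + 4) := by
  have h9 : (√(9 / 2 ^ D) : ℝ) = 3 * √(1 / 2 ^ D) := by
    rw [show (9 : ℝ) / 2 ^ D = 3 ^ 2 * (1 / 2 ^ D) by ring, Real.sqrt_mul (by norm_num),
      Real.sqrt_sq (by norm_num)]
  have hr : (√(1 / 2 ^ D) : ℝ) ^ 2 = 1 / 2 ^ D := Real.sq_sqrt (by positivity)
  set r : ℝ := √(1 / 2 ^ D) with hrdef
  have hr0 : 0 ≤ r := Real.sqrt_nonneg _
  have h1 : 3 / 8 * (255 / 256 : ℝ) ^ (4 * n) ≤ 2 ^ k * (4 * r) := by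
    refine hv.trans (h.trans ?_)
    refine mul_le_mul_of_nonneg_left ?_ (by positivity)
    rw [h9]
    have : v * s ≤ 2 * s := mul_le_mul_of_nonneg_right hv2 hs
    linarith
  have h2 : (3 / 8 * (255 / 256 : ℝ) ^ (4 * n)) ^ 2 ≤ (2 ^ k * (4 * r)) ^ 2 :=
    pow_le_pow_left₀ (by positivity) h1 2
  rw [mul_pow, mul_pow, mul_pow, hr] at h2
  have h3 : (2 : ℝ) ^ D ≤ 2 ^ 7 * 2 ^ (2 * k) * (256 / 255) ^ (8 * n) := by
    have e1 : ((255 / 256 : ℝ) ^ (4 * n)) ^ 2 * (256 / 255) ^ (8 * n) = 1 := by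
      rw [← pow_mul, show 4 * n * 2 = 8 * n by ring, ← mul_pow]
      norm_num
    have hD0 : (0 : ℝ) < 2 ^ D := by positivity
    have h4 : (3 / 8 : ℝ) ^ 2 * ((255 / 256 : ℝ) ^ (4 * n)) ^ 2 * 2 ^ D ≤ (2 ^ k) ^ 2 * 4 ^ 2 := by
      have := mul_le_mul_of_nonneg_right h2 hD0.le
      have e2 : ((2 : ℝ) ^ k) ^ 2 * (4 ^ 2 * (1 / 2 ^ D)) * 2 ^ D = (2 ^ k) ^ 2 * 4 ^ 2 := by
        field_simp
      rwa [e2] at this
    have h5 := mul_le_mul_of_nonneg_right h4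
      (show (0 : ℝ) ≤ (256 / 255) ^ (8 * n) by positivity)
    have e3 : (3 / 8 : ℝ) ^ 2 * ((255 / 256 : ℝ) ^ (4 * n)) ^ 2 * 2 ^ D * (256 / 255) ^ (8 * n) =
        9 / 64 * 2 ^ D * (((255 / 256 : ℝ) ^ (4 * n)) ^ 2 * (256 / 255) ^ (8 * n)) := by ring
    rw [e3, e1, mul_one] at h5
    have e4 : ((2 : ℝ) ^ k) ^ 2 = 2 ^ (2 * k) := by rw [← pow_mul, mul_comm]
    rw [e4] at h5
    have h6 : (0 : ℝ) ≤ 2 ^ (2 * k) * (256 / 255) ^ (8 * n) := by positivity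
    nlinarith
  have h7 : (2 : ℝ) ^ (22 * D) ≤ 2 ^ (154 + 44 * k + n) := by
    have h8 := pow_le_pow_left₀ (by positivity) h3 22
    have e5 : ((2 : ℝ) ^ D) ^ 22 = 2 ^ (22 * D) := by rw [← pow_mul, mul_comm]
    rw [e5, mul_pow, mul_pow, ← pow_mul, ← pow_mul, ← pow_mul] at h8
    refine h8.trans ?_
    have h9' : ((256 / 255 : ℝ) ^ (8 * n * 22)) ≤ 2 ^ n := by
      rw [show 8 * n * 22 = 176 * n by ring, pow_mul]
      exact pow_le_pow_left₀ (by positivity) (by norm_num) n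
    calc (2 : ℝ) ^ (7 * 22) * 2 ^ (2 * k * 22) * (256 / 255) ^ (8 * n * 22)
        ≤ 2 ^ (7 * 22) * 2 ^ (2 * k * 22) * 2 ^ n := by gcongr
      _ = 2 ^ (154 + 44 * k + n) := by
        rw [← pow_add, ← pow_add]
        congr 1
        ring
  have h10 : 22 * D ≤ 154 + 44 * k + n := (pow_le_pow_iff_right₀ (by norm_num)).mp h7
  omega

variable {n : ℕ}

theorem nds_half (hn : 1 ≤ n) : ∀ t ∈ nds n, 2 * t ≤ 2050 * n ^ 2 := by
  intro t ht
  have := nds_le hn ht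
  omega

/-- The exceptional pairs are few. -/
theorem few (hn : 1 ≤ n) {D : ℕ} (hD : 9 * D ≤ n) :
    2 * ((Fintype.card (Slot n (2050 * n ^ 2)) : ℝ) / 2 ^ (16 * n)) ≤ √(1 / 2 ^ D) := by
  have h1 : (2 * Fintype.card (Slot n (2050 * n ^ 2))) * 2 ^ D ≤ 2 ^ (16 * n) := by
    rw [card_slot]
    have h2 : n ≤ 2 ^ (n - 1) := by
      have := Nat.lt_two_pow_self (n := n - 1)
      omega
    have h3 : n ^ 3 ≤ 2 ^ (3 * (n - 1)) := by
      calc n ^ 3 ≤ (2 ^ (n - 1)) ^ 3 := Nat.pow_le_pow_left h2 3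
        _ = _ := by rw [← pow_mul, mul_comm]
    calc 2 * (4 * n * (2050 * n ^ 2)) * 2 ^ D = 16400 * n ^ 3 * 2 ^ D := by ring
      _ ≤ 2 ^ 15 * 2 ^ (3 * (n - 1)) * 2 ^ n := by
        gcongr
        · norm_num
        · norm_num
        · omega
      _ = 2 ^ (15 + 3 * (n - 1) + n) := by rw [← pow_add, ← pow_add]
      _ ≤ 2 ^ (16 * n) := Nat.pow_le_pow_right (by norm_num) (by omega)
  have h4 : (2 * (Fintype.card (Slot n (2050 * n ^ 2)) : ℝ)) * 2 ^ D ≤ 2 ^ (16 * n) := by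
    exact_mod_cast h1
  have hD0 : (0 : ℝ) < 2 ^ D := by positivity
  have h5 : 2 * ((Fintype.card (Slot n (2050 * n ^ 2)) : ℝ) / 2 ^ (16 * n)) ≤ 1 / 2 ^ D := by
    rw [← mul_div_assoc, div_le_div_iff₀ (by positivity) hD0, one_mul]
    exact h4
  refine h5.trans (Real.le_sqrt_of_sq_le ?_)
  have h6 : (1 : ℝ) / 2 ^ D ≤ 1 := by
    rw [div_le_one hD0]
    exact one_le_pow₀ (by norm_num)
  have h7 : (0 : ℝ) ≤ 1 / 2 ^ D := by positivity
  nlinarith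

theorem total_uppcc (ℓ : ℕ) : ∃ (N : ℕ) (F : (Fin N → Bool) → (Fin N → Bool) → Bool),
    N ≤ 2 ^ (8 * ℓ + 32) ∧
    HasAMcc F (5 * ℓ + 23) (24 * ℓ + 145) ∧
    (∀ k, SignRankLE F (2 ^ k) → 2 ^ ℓ ≤ 31 * (k + 4)) ∧
    (∀ c, HasUPPcc F c → 2 ^ ℓ ≤ 31 * (c + 5)) ∧
    (∀ p c, HasPPcc F p c → 2 ^ ℓ < 18 * (p + c + 2)) ∧
    ∀ p c, HasMAcc F p c → 2 ^ ℓ < 18 * (p + 2) * (c + 2) := by
  set n := 2 ^ ℓ with hn
  have hn1 : 1 ≤ n := Nat.one_le_two_pow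
  set m := 2050 * n ^ 2 with hm
  have hhalf : ∀ t ∈ nds n, 2 * t ≤ m := nds_half hn1
  have hm' : ∀ t ∈ nds n, t ≤ m := fun t ht => by have := hhalf t ht; omega
  have hD : 9 * (n / 9) ≤ n := Nat.mul_div_le _ _
  have hD' : n < 9 * (n / 9 + 1) := Nat.lt_mul_div_succ n (by norm_num)
  have hpow : ∀ e : ℕ, n ^ e = 2 ^ (e * ℓ) := by
    intro e
    rw [hn, ← pow_mul, mul_comm]
  -- reindexing
  have hcard : Fintype.card (Fin (Fintype.card (PB n m (16 * n)) + 2 * Fintype.card (TB n m)) →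
      Bool) = Fintype.card (Inp n m (16 * n)) := by
    rw [card_inp, Fintype.card_fun, Fintype.card_bool, Fintype.card_fin, pow_add, pow_mul]
    norm_num
  let e := Fintype.equivOfCardEq hcard
  have hback : (fun x y => (fun x y => FF (e x) (e y)) (e.symm x) (e.symm y)) =
      (FF : Inp n m (16 * n) → Inp n m (16 * n) → Bool) := by
    funext x y
    simp
  -- sign-rank
  have hsr : ∀ k, SignRankLE (fun x y => FF (e x) (e y)) (2 ^ k) → n ≤ 31 * (k + 4) := by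
    intro k h
    have h1 := SignRankLE.comap h e.symm e.symm
    rw [hback] at h1
    have h2 := signRank_ge hn1 (by omega) hhalf hD h1
    push_cast at h2
    have h3 : V0 n (n / 9) (fun _ : Fin (4 * n) => (∅ : Finset (Fin m))) ≤ 2 := by
      refine (V0_le hm' hD _).trans ?_
      have h4 : W0 n (fun _ : Fin (4 * n) => (∅ : Finset (Fin m))) ≤ 1 := by
        have h5 : ∑ T : Fin (4 * n) → Finset (Fin m), W0 n T = 1 := sum_W (sum_w0 hm')
        rw [← h5]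
        exact single_le_sum (f := fun T : Fin (4 * n) → Finset (Fin m) => W0 n T)
          (fun T _ => W0_nonneg T) (mem_univ _)
      linarith
    exact numeric hD' (by positivity) (V0_empty_ge hm' hn1) h3 (few hn1 hD) h2
  refine ⟨Fintype.card (PB n m (16 * n)) + 2 * Fintype.card (TB n m),
    fun x y => FF (e x) (e y), ?_, ?_, hsr, ?_, ?_, ?_⟩
  · refine (card_input_le hn1).trans (le_of_eq ?_)
    rw [hpow, ← pow_add]
    congr 1
    ring
  · have h1 := hasAMcc_FF (n := n) (m := m) (K := 16 * n) (r := ℓ + 2) (s := 4 * ℓ + 21)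
      (p := 8 * ℓ + 31) hn1 (by
        have : 1 ≤ n ^ 2 := Nat.one_le_pow _ _ hn1
        omega) (by rw [hn, pow_add]; ring) (by
        have e1 : 12 * (4 * n * m * (16 * n)) = 1574400 * n ^ 4 := by rw [hm]; ring
        rw [e1, hpow, pow_add, mul_comm (2 ^ (4 * ℓ))]
        exact Nat.mul_le_mul_right _ (by norm_num)) (by
        refine (card_claim_le hn1).trans (le_of_eq ?_)
        rw [hpow, ← pow_add]
        congr 1
        ring)
    have h2 := h1.comap e e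
    have e1 : ℓ + 2 + (4 * ℓ + 21) = 5 * ℓ + 23 := by ring
    have e2 : 8 * ℓ + 31 + 4 * (4 * ℓ + 21) + 30 = 24 * ℓ + 145 := by ring
    rw [e1, e2] at h2
    exact h2
  · intro c h
    have h1 := HasUPPcc.signRank h
    have h2 := SignRankLE.mono h1 (e := 2 ^ (c + 1)) (by
      rw [pow_succ]
      have : 1 ≤ 2 ^ c := Nat.one_le_two_pow
      omega)
    exact hsr (c + 1) h2
  · intro p c h
    have h1 := h.comap e.symm e.symm
    rw [hback] at h1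
    have h2 := (hasWeights hn1 (by omega) hhalf hD).ppcc h1
    omega
  · intro p c h
    have h1 := h.comap e.symm e.symm
    rw [hback] at h1
    have h2 := (hasWeights hn1 (by omega) hhalf hD).macc h1
    rw [mul_assoc] at h2 ⊢
    omega

end Pool.Agent.Lib.MP_ff3ed7_lc.U
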