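import Pool.Agent.Lib.MP_ff3ed7_lc.U.Defs
import Pool.Agent.Lib.MP_ff3ed7_lc.UpperCC

/-!
The Arthur-Merlin communication protocol.

Coins: a block `v` (`r` bits, `4 n = 2 ^ r`) and a point `a` of a field with `2 ^ s` elements
(`GaloisField 2 s`).  The hash of a string `x` of `K` bits is `∑ k, x k * a ^ k`.  The point `a` is
good if, for every slot `c`, the hashes of the two strings of `c` are equal only if the strings are
equal; `a` is bad with probability at most `4 n m K / 2 ^ s ≤ 1 / 12`.

Merlin sends either a number `j` (claim: slot `(v, j)` is active), or a slot `c` and a defect `d`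
(claim: `c` is active and the table of `c` fails the check `d.check`), or slots `c`, `c'` (claim:
`c` is active and the public bit `c'` of the table of `c` is not equal to [`c'` is active]); for
each of at most two flags he sends the hashes of the two strings (each player checks one of them),
and for each of at most ten table bits three bits as in `HasAM.cc` of `UpperCC.lean`.

If `FF x y = false` and `a` is good then all the claims of the last two kinds are false, and the
claims of the first kind are true for at most `n` of the `4 n` blocks: acceptance probability at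
most `1 / 4 + 1 / 12`.  If `FF x y = true`, then either an active slot has an incorrect table and
Merlin convinces the players whenever `a` is good, or (`Valid.sound`, `gap_sound`, `dichotomy2`) at
least `3 n` blocks contain an active slot.
-/

open Finset

namespace Pool.Agent.Lib.MP_ff3ed7_lc.U

variable {n m K : ℕ}

/-- Merlin's claims. -/
abbrev Claim (n m : ℕ) : Type :=
  Fin m ⊕ (Slot n m × (Defect (Fin (4 * n) × Fin m) (GQ n m) n ⊕ Slot n m))

/-! ### Protocols with coins and messages in finite types -/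

theorem prob_eq_of_equiv {C : Type} {r : ℕ} (e : (Fin r → Bool) ≃ C) (E : C → Prop) :
    prob r (fun ρ => E (e ρ)) = (Nat.card {c // E c} : ℝ) / 2 ^ r := by
  unfold prob
  rw [Nat.card_congr (e.subtypeEquiv (q := fun c => E c) (fun _ => Iff.rfl))]

/-- Coins in a set `C` with `2 ^ r` elements, messages in a set `M` with at most `2 ^ p`
elements. -/
theorem hasAMcc_of {X Y C M : Type} [Fintype C] [Fintype M] [Nonempty M] {F : X → Y → Bool}
    {r p : ℕ} (hC : Fintype.card C = 2 ^ r) (hM : Fintype.card M ≤ 2 ^ p)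
    (A : M → C → X → Bool) (B : M → C → Y → Bool)
    (h1 : ∀ x y, F x y = true →
      2 * 2 ^ r ≤ 3 * Nat.card {c // ∃ m, A m c x = true ∧ B m c y = true})
    (h0 : ∀ x y, F x y = false →
      3 * Nat.card {c // ∃ m, A m c x = true ∧ B m c y = true} ≤ 2 ^ r) : HasAMcc F r p := by
  classical
  have e : (Fin r → Bool) ≃ C := Fintype.equivOfCardEq (by simp [hC])
  obtain ⟨dec, hdec⟩ : ∃ dec : (Fin p → Bool) → M, Function.Surjective dec := by
    have hle : Fintype.card M ≤ Fintype.card (Fin p → Bool) := by simpa using hM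
    obtain ⟨emb⟩ := Function.Embedding.nonempty_of_card_le hle
    exact ⟨Function.invFun emb, Function.invFun_surjective emb.injective⟩
  have key : ∀ x y, (fun ρ : Fin r → Bool => ∃ m, A (dec m) (e ρ) x = true ∧
      B (dec m) (e ρ) y = true) = fun ρ => ∃ m, A m (e ρ) x = true ∧ B m (e ρ) y = true := by
    intro x y
    funext ρ
    apply propext
    constructor
    · rintro ⟨m, hm⟩
      exact ⟨dec m, hm⟩
    · rintro ⟨m, hm⟩
      obtain ⟨m', rfl⟩ := hdec m
      exact ⟨m', hm⟩
  have h2 : (0 : ℝ) < 2 ^ r := by positivity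
  refine ⟨fun m ρ x => A (dec m) (e ρ) x, fun m ρ y => B (dec m) (e ρ) y, fun x y h => ?_,
    fun x y h => ?_⟩
  · rw [key, prob_eq_of_equiv e fun c => ∃ m, A m c x = true ∧ B m c y = true, le_div_iff₀ h2]
    have h3 : (2 : ℝ) * 2 ^ r ≤ 3 * Nat.card {c // ∃ m, A m c x = true ∧ B m c y = true} := by
      exact_mod_cast h1 x y h
    linarith
  · rw [key, prob_eq_of_equiv e fun c => ∃ m, A m c x = true ∧ B m c y = true, div_le_iff₀ h2]
    have h3 : (3 : ℝ) * Nat.card {c // ∃ m, A m c x = true ∧ B m c y = true} ≤ 2 ^ r := by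
      exact_mod_cast h0 x y h
    linarith

/-! ### The hash function -/

section hash

variable {𝔽 : Type} [Field 𝔽]

/-- The hash of a string of bits. -/
def hsh (a : 𝔽) (x : Fin K → Bool) : 𝔽 := ∑ k, (if x k then 1 else 0) * a ^ (k : ℕ)

open Classical in
theorem card_hsh_eq [Fintype 𝔽] {x y : Fin K → Bool} (h : x ≠ y) :
    (univ.filter fun a : 𝔽 => hsh a x = hsh a y).card ≤ K := by
  obtain ⟨k, hk⟩ := Function.ne_iff.1 h
  have hK : 0 < K := k.pos
  let p : Polynomial 𝔽 := ∑ k : Fin K, Polynomial.C ((if x k then (1 : 𝔽) else 0) -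
    (if y k then 1 else 0)) * Polynomial.X ^ (k : ℕ)
  have hd : p.natDegree ≤ K - 1 := by
    refine Polynomial.natDegree_sum_le_of_forall_le _ _ fun i _ => ?_
    refine (Polynomial.natDegree_C_mul_X_pow_le _ _).trans ?_
    have := i.isLt
    omega
  have hp : p ≠ 0 := by
    intro h0
    have h1 : p.coeff k = (if x k then (1 : 𝔽) else 0) - (if y k then 1 else 0) := by
      simp only [p, Polynomial.finsetSum_coeff, Polynomial.coeff_C_mul_X_pow]
      rw [sum_eq_single k]
      · simp
      · intro b _ hb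
        rw [if_neg]
        intro h2
        exact hb (Fin.ext h2.symm)
      · intro h2
        exact absurd (mem_univ _) h2
    rw [h0, Polynomial.coeff_zero] at h1
    cases hx : x k <;> cases hy : y k <;> rw [hx, hy] at h1 hk <;> simp at h1 hk
  have hsub : (univ.filter fun a : 𝔽 => hsh a x = hsh a y) ⊆ p.roots.toFinset := by
    intro a ha
    rw [mem_filter] at ha
    rw [Multiset.mem_toFinset, Polynomial.mem_roots hp, Polynomial.IsRoot.def]
    have h1 : p.eval a = hsh a x - hsh a y := by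
      simp only [p, Polynomial.eval_finsetSum, Polynomial.eval_mul, Polynomial.eval_C,
        Polynomial.eval_pow, Polynomial.eval_X]
      unfold hsh
      rw [← sum_sub_distrib]
      exact sum_congr rfl fun i _ => by ring
    rw [h1, ha.2, sub_self]
  calc _ ≤ p.roots.toFinset.card := card_le_card hsub
    _ ≤ Multiset.card p.roots := Multiset.toFinset_card_le _
    _ ≤ p.natDegree := Polynomial.card_roots' p
    _ ≤ K := hd.trans (Nat.sub_le _ _)

open Classical in
/-- The points which do not separate the strings of some slot. -/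
noncomputable def badp (𝔽 : Type) [Field 𝔽] [Fintype 𝔽] {S : Type} [Fintype S]
    (x y : S → Fin K → Bool) : Finset 𝔽 :=
  univ.filter fun a => ∃ c, x c ≠ y c ∧ hsh a (x c) = hsh a (y c)

open Classical in
theorem card_badp_le [Fintype 𝔽] {S : Type} [Fintype S] (x y : S → Fin K → Bool) :
    (badp 𝔽 x y).card ≤ Fintype.card S * K := by
  have h1 : badp 𝔽 x y ⊆ univ.biUnion fun c : S =>
      if x c = y c then ∅ else univ.filter fun a : 𝔽 => hsh a (x c) = hsh a (y c) := by
    intro a ha
    rw [badp, mem_filter] at ha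
    obtain ⟨-, c, hc, h2⟩ := ha
    rw [mem_biUnion]
    refine ⟨c, mem_univ _, ?_⟩
    rw [if_neg hc, mem_filter]
    exact ⟨mem_univ _, h2⟩
  refine (card_le_card h1).trans (card_biUnion_le.trans ?_)
  refine (sum_le_card_nsmul _ _ K fun c _ => ?_).trans ?_
  · by_cases hc : x c = y c
    · rw [if_pos hc, card_empty]
      exact Nat.zero_le _
    · rw [if_neg hc]
      exact card_hsh_eq hc
  · rw [card_univ, smul_eq_mul]

end hash

/-! ### The protocol -/

section prot

variable {𝔽 : Type} [Field 𝔽]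

open Classical in
/-- The activity pattern according to the hashes. -/
noncomputable def hpat (a : 𝔽) (x y : PB n m K → Bool) (v : Fin (4 * n)) : Finset (Fin m) :=
  univ.filter fun j => hsh a (fun k => x ((v, j), k)) = hsh a (fun k => y ((v, j), k))

theorem mem_hpat {a : 𝔽} {x y : PB n m K → Bool} {c : Slot n m} :
    c.2 ∈ hpat a x y c.1 ↔ hsh a (fun k => x (c, k)) = hsh a (fun k => y (c, k)) := by
  classical
  rw [hpat, mem_filter]
  simp only [mem_univ, true_and]

theorem exists_sim_fn {ι : Type} (x y : ι → Bool × Bool) (t : DTree ι Bool) {q : ℕ}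
    (hq : t.DepthLE q) (h : t.eval (sel x y) = true) : ∃ L : Fin q → Bool × Bool × Bool,
      simA x t (List.ofFn L) = true ∧ simB y t (List.ofFn L) = true := by
  obtain ⟨L, hL, hA, hB⟩ := exists_sim x y t q hq h
  subst hL
  exact ⟨L.get, by rwa [List.ofFn_get], by rwa [List.ofFn_get]⟩

/-- The test of the table of a slot; the bit `e` is the claimed activity of the second slot. -/
def ttree (e : Bool) : Defect (Fin (4 * n) × Fin m) (GQ n m) n ⊕ Slot n m →
    DTree (GCell n m n) (ZMod 2)
  | .inl d => d.check (gapSys n m)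
  | .inr c' => .node (.pub c') fun a => .leaf (decide (a ≠ if e then 1 else 0))

/-- The test of the table of slot `c` as a tree which reads bits. -/
def tt (c : Slot n m) (e : Bool) (b : Defect (Fin (4 * n) × Fin m) (GQ n m) n ⊕ Slot n m) :
    DTree (TB n m) Bool :=
  (ttree e b).conv (fun g => (c, g)) fun _ => bz

theorem depth_tt (c : Slot n m) (e : Bool)
    (b : Defect (Fin (4 * n) × Fin m) (GQ n m) n ⊕ Slot n m) : (tt c e b).DepthLE 10 := by
  refine DTree.depthLE_conv ?_
  rcases b with d | c'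
  · exact d.depth_check (gapSys n m) vars_le
  · exact ⟨by norm_num, fun _ => trivial⟩

theorem eval_tt (c : Slot n m) (e : Bool)
    (b : Defect (Fin (4 * n) × Fin m) (GQ n m) n ⊕ Slot n m) (z : TB n m → Bool) :
    (tt c e b).eval z = (ttree e b).eval (tbl z c) := by
  unfold tt
  rw [DTree.eval_conv]
  rfl

/-- Merlin's messages. -/
abbrev Msgs (n m : ℕ) (𝔽 : Type) : Type :=
  Claim n m × (Fin 4 → 𝔽) × (Fin 10 → Bool × Bool × Bool)

open Classical in
/-- The first player. -/
noncomputable def accA (M : Msgs n m 𝔽) (c : Fin (4 * n) × 𝔽) (x : Inp n m K) : Bool :=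
  match M.1 with
  | .inl j => decide (hsh c.2 (fun k => x.1 ((c.1, j), k)) = M.2.1 0 ∧ M.2.1 0 = M.2.1 1)
  | .inr (c₁, .inl d) => decide (hsh c.2 (fun k => x.1 (c₁, k)) = M.2.1 0 ∧ M.2.1 0 = M.2.1 1) &&
      simA x.2 (tt c₁ (decide (M.2.1 2 = M.2.1 3)) (.inl d)) (List.ofFn M.2.2)
  | .inr (c₁, .inr c₂) => decide (hsh c.2 (fun k => x.1 (c₁, k)) = M.2.1 0 ∧
        M.2.1 0 = M.2.1 1 ∧ hsh c.2 (fun k => x.1 (c₂, k)) = M.2.1 2) &&
      simA x.2 (tt c₁ (decide (M.2.1 2 = M.2.1 3)) (.inr c₂)) (List.ofFn M.2.2)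

open Classical in
/-- The second player. -/
noncomputable def accB (M : Msgs n m 𝔽) (c : Fin (4 * n) × 𝔽) (y : Inp n m K) : Bool :=
  match M.1 with
  | .inl j => decide (hsh c.2 (fun k => y.1 ((c.1, j), k)) = M.2.1 1)
  | .inr (c₁, .inl d) => decide (hsh c.2 (fun k => y.1 (c₁, k)) = M.2.1 1) &&
      simB y.2 (tt c₁ (decide (M.2.1 2 = M.2.1 3)) (.inl d)) (List.ofFn M.2.2)
  | .inr (c₁, .inr c₂) => decide (hsh c.2 (fun k => y.1 (c₁, k)) = M.2.1 1 ∧
        hsh c.2 (fun k => y.1 (c₂, k)) = M.2.1 3) &&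
      simB y.2 (tt c₁ (decide (M.2.1 2 = M.2.1 3)) (.inr c₂)) (List.ofFn M.2.2)

/-- The condition under which Merlin convinces the players, for the activity pattern `T`. -/
def Acc (T : Fin (4 * n) → Finset (Fin m)) (tb : Slot n m → GCell n m n → ZMod 2)
    (v : Fin (4 * n)) : Prop :=
  v ∈ ne T ∨ ∃ v', ∃ j ∈ T v', ¬ Good T (tb (v', j))

theorem acc_sound {M : Msgs n m 𝔽} {c : Fin (4 * n) × 𝔽} {x y : Inp n m K}
    (hA : accA M c x = true) (hB : accB M c y = true) :
    Acc (hpat c.2 x.1 y.1) (tbl (sel x.2 y.2)) c.1 := by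
  classical
  obtain ⟨cl, w, L⟩ := M
  obtain ⟨v, a⟩ := c
  rcases cl with j | ⟨c₁, d | c₂⟩
  · simp only [accA, accB, decide_eq_true_eq] at hA hB
    left
    rw [mem_ne]
    refine ne_empty_of_mem (a := j) ?_
    exact (mem_hpat (c := (v, j))).2 (hA.1.trans (hA.2.trans hB.symm))
  · simp only [accA, accB, decide_eq_true_eq, Bool.and_eq_true] at hA hB
    right
    refine ⟨c₁.1, c₁.2, mem_hpat.2 (hA.1.1.trans (hA.1.2.trans hB.1.symm)), ?_⟩
    have h1 := eval_of_sim x.2 y.2 _ _ hA.2 hB.2
    rw [eval_tt] at h1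
    intro hg
    have h2 := (valid_iff _ _).1 hg.1 d
    rw [ttree] at h1
    rw [h1] at h2
    exact absurd h2 (by simp)
  · simp only [accA, accB, decide_eq_true_eq, Bool.and_eq_true] at hA hB
    right
    refine ⟨c₁.1, c₁.2, mem_hpat.2 (hA.1.1.trans (hA.1.2.1.trans hB.1.1.symm)), ?_⟩
    have h1 := eval_of_sim x.2 y.2 _ _ hA.2 hB.2
    rw [eval_tt] at h1
    intro hg
    have h2 := congrFun (congrFun hg.2 c₂.1) c₂.2
    simp only [ttree, DTree.eval_node, DTree.eval_leaf, decide_eq_true_eq] at h1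
    apply h1
    have h3 : (w 2 = w 3) ↔ c₂.2 ∈ hpat a x.1 y.1 c₂.1 := by
      rw [mem_hpat, hA.1.2.2, hB.1.2]
    unfold pubs bits at h2
    refine h2.trans ?_
    by_cases h4 : w 2 = w 3
    · rw [if_pos (h3.1 h4), if_pos h4]
    · rw [if_neg fun h5 => h4 (h3.2 h5), if_neg h4]

theorem acc_complete {c : Fin (4 * n) × 𝔽} {x y : Inp n m K}
    (h : Acc (hpat c.2 x.1 y.1) (tbl (sel x.2 y.2)) c.1) :
    ∃ M : Msgs n m 𝔽, accA M c x = true ∧ accB M c y = true := by
  classical
  obtain ⟨v, a⟩ := c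
  rcases h with h | ⟨v', j, hj, hb⟩
  · rw [mem_ne] at h
    obtain ⟨j, hj⟩ := nonempty_iff_ne_empty.2 h
    have hj' := (mem_hpat (c := (v, j))).1 hj
    refine ⟨(.inl j, fun _ => hsh a (fun k => x.1 ((v, j), k)), fun _ => default), ?_, ?_⟩
    · simp [accA]
    · simp only [accB, decide_eq_true_eq]
      exact hj'.symm
  · have hj' := (mem_hpat (c := (v', j))).1 hj
    by_cases hv : Valid (gapSys n m) (tbl (sel x.2 y.2) (v', j))
    · have hp : pubs (tbl (sel x.2 y.2) (v', j)) ≠ bits (hpat a x.1 y.1) := fun h => hb ⟨hv, h⟩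
      obtain ⟨v₂, hv₂⟩ := Function.ne_iff.1 hp
      obtain ⟨j₂, hj₂⟩ := Function.ne_iff.1 hv₂
      set w : Fin 4 → 𝔽 := ![hsh a (fun k => x.1 ((v', j), k)), hsh a (fun k => x.1 ((v', j), k)),
        hsh a (fun k => x.1 ((v₂, j₂), k)), hsh a (fun k => y.1 ((v₂, j₂), k))] with hw
      have h3 : (w 2 = w 3) ↔ j₂ ∈ hpat a x.1 y.1 v₂ := by
        rw [mem_hpat (c := (v₂, j₂))]
        rfl
      have h4 : (tt (v', j) (decide (w 2 = w 3)) (.inr (v₂, j₂))).eval (sel x.2 y.2) = true := by
        rw [eval_tt]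
        simp only [ttree, DTree.eval_node, DTree.eval_leaf, decide_eq_true_eq]
        intro h5
        apply hj₂
        unfold pubs bits
        refine h5.trans ?_
        by_cases h6 : w 2 = w 3
        · rw [if_pos (h3.1 h6), if_pos h6]
        · rw [if_neg fun h7 => h6 (h3.2 h7), if_neg h6]
      obtain ⟨L, hA, hB⟩ := exists_sim_fn x.2 y.2 _ (depth_tt _ _ _) h4
      refine ⟨(.inr ((v', j), .inr (v₂, j₂)), w, L), ?_, ?_⟩
      · simp only [accA, Bool.and_eq_true, decide_eq_true_eq]
        exact ⟨⟨rfl, rfl, rfl⟩, hA⟩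
      · simp only [accB, Bool.and_eq_true, decide_eq_true_eq]
        exact ⟨⟨hj'.symm, rfl⟩, hB⟩
    · rw [valid_iff] at hv
      push Not at hv
      obtain ⟨d, hd⟩ := hv
      set w : Fin 4 → 𝔽 := fun _ => hsh a (fun k => x.1 ((v', j), k)) with hw
      have h4 : (tt (v', j) (decide (w 2 = w 3)) (.inl d)).eval (sel x.2 y.2) = true := by
        rw [eval_tt]
        simpa [ttree] using hd
      obtain ⟨L, hA, hB⟩ := exists_sim_fn x.2 y.2 _ (depth_tt _ _ _) h4
      refine ⟨(.inr ((v', j), .inl d), w, L), ?_, ?_⟩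
      · simp only [accA, Bool.and_eq_true, decide_eq_true_eq]
        exact ⟨⟨rfl, rfl⟩, hA⟩
      · simp only [accB, Bool.and_eq_true, decide_eq_true_eq]
        exact ⟨hj'.symm, hB⟩

/-- The strings of the slots. -/
def strs (x : PB n m K → Bool) (c : Slot n m) (k : Fin K) : Bool := x (c, k)

theorem hpat_eq [Fintype 𝔽] {a : 𝔽} {x y : PB n m K → Bool} (h : a ∉ badp 𝔽 (strs x) (strs y)) :
    hpat a x y = actv fun i => xor (x i) (y i) := by
  classical
  funext v
  ext j
  rw [mem_hpat (c := (v, j)), actv, mem_filter]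
  simp only [mem_univ, true_and]
  constructor
  · intro h1 k
    by_contra h2
    apply h
    rw [badp, mem_filter]
    refine ⟨mem_univ _, (v, j), ?_, h1⟩
    intro h3
    apply h2
    have h4 : x ((v, j), k) = y ((v, j), k) := congrFun h3 k
    rw [h4, Bool.xor_self]
  · intro h1
    congr 1
    funext k
    have h2 := h1 k
    revert h2
    cases x ((v, j), k) <;> cases y ((v, j), k) <;> simp

end prot

/-! ### The analysis -/

theorem hasAMcc_field {𝔽 : Type} [Field 𝔽] [Fintype 𝔽] {r s p : ℕ} (hn : 1 ≤ n) (hm : 1 ≤ m)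
    (hr : 4 * n = 2 ^ r) (hF : Fintype.card 𝔽 = 2 ^ s)
    (hs : 12 * (4 * n * m * K) ≤ 2 ^ s) (hp : Fintype.card (Claim n m) ≤ 2 ^ p) :
    HasAMcc (FF : Inp n m K → Inp n m K → Bool) (r + s) (p + 4 * s + 30) := by
  classical
  have hC : Fintype.card (Fin (4 * n) × 𝔽) = 2 ^ (r + s) := by
    rw [Fintype.card_prod, Fintype.card_fin, hF, hr, pow_add]
  have hM : Fintype.card (Msgs n m 𝔽) ≤ 2 ^ (p + 4 * s + 30) := by
    have h1 : Fintype.card (Msgs n m 𝔽) = Fintype.card (Claim n m) * ((2 ^ s) ^ 4 * 8 ^ 10) := by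
      rw [Fintype.card_prod, Fintype.card_prod, Fintype.card_fun, Fintype.card_fun]
      rw [hF]
      simp only [Fintype.card_fin, Fintype.card_prod, Fintype.card_bool, Nat.reduceMul]
    rw [h1]
    calc _ ≤ 2 ^ p * ((2 ^ s) ^ 4 * 8 ^ 10) := Nat.mul_le_mul_right _ hp
      _ = 2 ^ (p + 4 * s + 30) := by
        rw [← pow_mul, pow_add, pow_add, show (8 : ℕ) = 2 ^ 3 by norm_num, ← pow_mul]
        ring_nf
  have : Nonempty (Msgs n m 𝔽) := ⟨(.inl ⟨0, hm⟩, fun _ => 0, fun _ => default)⟩
  have hacc : ∀ (x y : Inp n m K) (c : Fin (4 * n) × 𝔽),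
      (∃ M : Msgs n m 𝔽, accA M c x = true ∧ accB M c y = true) ↔
      Acc (hpat c.2 x.1 y.1) (tbl (sel x.2 y.2)) c.1 :=
    fun x y c => ⟨fun ⟨_, hA, hB⟩ => acc_sound hA hB, acc_complete⟩
  have hbad : ∀ x y : Inp n m K, 12 * (badp 𝔽 (strs x.1) (strs y.1)).card ≤ 2 ^ s := by
    intro x y
    have h1 := card_badp_le (𝔽 := 𝔽) (strs x.1) (strs y.1)
    rw [Fintype.card_prod, Fintype.card_fin, Fintype.card_fin] at h1
    exact (Nat.mul_le_mul_left 12 h1).trans hs
  have h2r : (2 : ℕ) ^ (r + s) = 4 * n * 2 ^ s := by rw [pow_add, ← hr]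
  refine hasAMcc_of hC hM accA accB (fun x y hxy => ?_) fun x y hxy => ?_
  · simp only [hacc]
    set T := actv fun i => xor (x.1 i) (y.1 i) with hT
    set B := badp 𝔽 (strs x.1) (strs y.1) with hB
    obtain ⟨V, hV, hVa⟩ : ∃ V : Finset (Fin (4 * n)), 3 * n ≤ V.card ∧
        ∀ v ∈ V, Acc T (tbl (sel x.2 y.2)) v := by
      have h1 : F4 T (tbl (sel x.2 y.2)) = true := hxy
      have h2 : (∃ v, ∃ j ∈ T v, ¬ Good T (tbl (sel x.2 y.2) (v, j))) ∨ n < (ne T).card := by
        simpa [F4] using h1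
      by_cases h3 : ∃ v, ∃ j ∈ T v, ¬ Good T (tbl (sel x.2 y.2) (v, j))
      · refine ⟨univ, ?_, fun v _ => Or.inr h3⟩
        rw [card_univ, Fintype.card_fin]
        omega
      · have h4 := h2.resolve_left h3
        refine ⟨ne T, ?_, fun v hv => Or.inl hv⟩
        have h5 : (ne T).Nonempty := card_pos.1 (by omega)
        obtain ⟨v, hv⟩ := h5
        obtain ⟨j, hj⟩ := nonempty_iff_ne_empty.2 (mem_ne.1 hv)
        have h6 : Good T (tbl (sel x.2 y.2) (v, j)) := by
          by_contra h7
          exact h3 ⟨v, j, hj, h7⟩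
        have h8 := dichotomy2 h6.1
        rw [h6.2, ones_bits] at h8
        omega
    have h1 : (V ×ˢ Bᶜ).card ≤
        Nat.card {c : Fin (4 * n) × 𝔽 // Acc (hpat c.2 x.1 y.1) (tbl (sel x.2 y.2)) c.1} := by
      rw [Nat.card_eq_fintype_card, Fintype.card_subtype]
      refine card_le_card fun c hc => ?_
      rw [mem_product, mem_compl] at hc
      rw [mem_filter, hpat_eq hc.2]
      exact ⟨mem_univ _, hVa _ hc.1⟩
    rw [card_product, card_compl, hF] at h1
    have h2 := hbad x y
    rw [← hB] at h2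
    have h3 : 11 * 2 ^ s ≤ 12 * (2 ^ s - B.card) := by omega
    have h4 : 3 * n * (11 * 2 ^ s) ≤ V.card * (12 * (2 ^ s - B.card)) := Nat.mul_le_mul hV h3
    rw [h2r]
    have h5 : V.card * (12 * (2 ^ s - B.card)) = 12 * (V.card * (2 ^ s - B.card)) := by ring
    rw [h5] at h4
    have h6 : 3 * n * (11 * 2 ^ s) = 33 * (n * 2 ^ s) := by ring
    have h7 : 4 * n * 2 ^ s = 4 * (n * 2 ^ s) := by ring
    rw [h6] at h4
    rw [h7]
    omega
  · simp only [hacc]
    set T := actv fun i => xor (x.1 i) (y.1 i) with hT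
    set B := badp 𝔽 (strs x.1) (strs y.1) with hB
    have h1 : F4 T (tbl (sel x.2 y.2)) = false := hxy
    have h2 : (∀ v, ∀ j ∈ T v, Good T (tbl (sel x.2 y.2) (v, j))) ∧ (ne T).card ≤ n := by
      rw [← Bool.not_eq_true, F4, decide_eq_true_eq, not_or, not_lt] at h1
      refine ⟨fun v j hj => ?_, h1.2⟩
      by_contra h3
      exact h1.1 ⟨v, j, hj, h3⟩
    have h3 : Nat.card {c : Fin (4 * n) × 𝔽 // Acc (hpat c.2 x.1 y.1) (tbl (sel x.2 y.2)) c.1} ≤
        (ne T ×ˢ (univ : Finset 𝔽) ∪ (univ : Finset (Fin (4 * n))) ×ˢ B).card := by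
      rw [Nat.card_eq_fintype_card, Fintype.card_subtype]
      refine card_le_card fun c hc => ?_
      rw [mem_filter] at hc
      rw [mem_union, mem_product, mem_product]
      by_cases h4 : c.2 ∈ B
      · exact Or.inr ⟨mem_univ _, h4⟩
      · left
        refine ⟨?_, mem_univ _⟩
        have h5 := hc.2
        rw [hpat_eq h4] at h5
        rcases h5 with h5 | ⟨v', j, hj, h6⟩
        · exact h5
        · exact absurd (h2.1 v' j hj) h6
    have h4 := h3.trans (card_union_le _ _)
    rw [card_product, card_product, card_univ, card_univ, hF, Fintype.card_fin] at h4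
    have h5 := hbad x y
    rw [← hB] at h5
    rw [h2r]
    have h6 : (ne T).card * 2 ^ s ≤ n * 2 ^ s := Nat.mul_le_mul_right _ h2.2
    have h7 : n * (12 * B.card) ≤ n * 2 ^ s := Nat.mul_le_mul_left _ h5
    have h8 : n * (12 * B.card) = 3 * (4 * n * B.card) := by ring
    have h9 : 4 * n * 2 ^ s = 4 * (n * 2 ^ s) := by ring
    rw [h8] at h7
    rw [h9]
    omega

theorem hasAMcc_FF {r s p : ℕ} (hn : 1 ≤ n) (hm : 1 ≤ m) (hr : 4 * n = 2 ^ r)
    (hs : 12 * (4 * n * m * K) ≤ 2 ^ s) (hp : Fintype.card (Claim n m) ≤ 2 ^ p) :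
    HasAMcc (FF : Inp n m K → Inp n m K → Bool) (r + s) (p + 4 * s + 30) := by
  classical
  rcases Nat.eq_zero_or_pos s with h0 | h0
  · subst h0
    have hK : K = 0 := by
      by_contra hK
      have h1 : 1 ≤ 4 * n * m * K := by
        have : 0 < 4 * n * m * K := by positivity
        exact this
      rw [pow_zero] at hs
      omega
    subst hK
    have hF : ∀ x y : Inp n m 0, FF x y = true := by
      intro x y
      have h1 : ne (actv fun i : PB n m 0 => xor (x.1 i) (y.1 i)) = univ := by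
        rw [ne, filter_true_of_mem]
        intro v _ hv
        have h2 : (⟨0, hm⟩ : Fin m) ∈ actv (fun i : PB n m 0 => xor (x.1 i) (y.1 i)) v := by
          rw [actv, mem_filter]
          exact ⟨mem_univ _, fun k => k.elim0⟩
        rw [hv] at h2
        exact absurd h2 (notMem_empty _)
      unfold FF F5 F4
      rw [decide_eq_true_eq]
      right
      rw [h1, card_univ, Fintype.card_fin]
      omega
    refine ⟨fun _ _ _ => true, fun _ _ _ => true, fun x y _ => ?_, fun x y h => ?_⟩
    · unfold prob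
      rw [le_div_iff₀ (by positivity)]
      have h1 : Nat.card {ρ : Fin (r + 0) → Bool // ∃ m : Fin (p + 4 * 0 + 30) → Bool,
          true = true ∧ true = true} = 2 ^ (r + 0) := by
        rw [Nat.card_congr (Equiv.subtypeUnivEquiv fun _ => ⟨fun _ => true, rfl, rfl⟩)]
        simp
      rw [h1]
      push_cast
      have h2 : (0 : ℝ) < 2 ^ (r + 0) := by positivity
      linarith
    · rw [hF x y] at h
      exact absurd h (by simp)
  · have : Fact (Nat.Prime 2) := ⟨Nat.prime_two⟩
    have h1 := GaloisField.card 2 s (by omega)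
    have : Finite (GaloisField 2 s) := Nat.finite_of_card_ne_zero (by rw [h1]; positivity)
    have : Fintype (GaloisField 2 s) := Fintype.ofFinite _
    exact hasAMcc_field (𝔽 := GaloisField 2 s) hn hm hr (by rw [← Nat.card_eq_fintype_card, h1])
      hs hp

end Pool.Agent.Lib.MP_ff3ed7_lc.U
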