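import Pool.Agent.Lib.MP_ff3ed7_lc.DefsCC

/-!
Sign-rank, and two-party communication protocols with unbounded error.
-/

open Finset

namespace Pool.Agent.Lib.MP_ff3ed7_lc

variable {X Y : Type}

/-- `F` is the sign of a real matrix, with rows indexed by `X` and columns indexed by `Y`, of rank
at most `d`. -/
def SignRankLE (F : X → Y → Bool) (d : ℕ) : Prop :=
  ∃ (u : X → Fin d → ℝ) (v : Y → Fin d → ℝ), ∀ x y,
    (F x y = true → 0 < ∑ i, u x i * v y i) ∧ (F x y = false → ∑ i, u x i * v y i < 0)

/-- `F` has an unbounded error communication protocol of cost `c`: each player has private random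
bits (`r` bits for the first player, `s` bits for the second player), they exchange at most `c`
bits, and the output is correct with probability more than one half. -/
def HasUPPcc (F : X → Y → Bool) (c : ℕ) : Prop :=
  ∃ (r s : ℕ) (P : Prot (X × (Fin r → Bool)) (Y × (Fin s → Bool))), P.CostLE c ∧
    ∀ x y, 2 ^ (r + s) <
      2 * Nat.card {ρ : (Fin r → Bool) × (Fin s → Bool) // P.eval (x, ρ.1) (y, ρ.2) = F x y}

end Pool.Agent.Lib.MP_ff3ed7_lc
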