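import Pool.Agent.Lib.MP_ff3ed7_lc.Exact
import Pool.Agent.Lib.MP_ff3ed7_lc.Pattern
import Pool.Agent.Lib.MP_ff3ed7_lc.U.DefsUPP

/-!
The total two-party function.  There are `4 n` blocks of `m` slots.  Each slot `c` carries a flag
and a table.  The flag is the equality of two strings of `K` bits; the slot is active if the two
strings are equal.  The table is an encoding, by shares, of a solution of the system `gapSys n m`;
its bits are given by the gadgets `sel`.  The value is one if an active slot has an incorrect
table (one which is not valid, or whose public bits are not the activity pattern), or if more than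
`n` blocks contain an active slot.
-/

open Finset

namespace Pool.Agent.Lib.MP_ff3ed7_lc.U

/-- The slots: a block and a number. -/
abbrev Slot (n m : ℕ) : Type := Fin (4 * n) × Fin m

/-- The bits of the flags. -/
abbrev PB (n m K : ℕ) : Type := Slot n m × Fin K

/-- The bits of the tables. -/
abbrev TB (n m : ℕ) : Type := Slot n m × GCell n m n

variable {n m K : ℕ}

/-- The table `a` is correct for the activity pattern `T`. -/
def Good (T : Fin (4 * n) → Finset (Fin m)) (a : GCell n m n → ZMod 2) : Prop :=
  Valid (gapSys n m) a ∧ pubs a = bits T

open Classical in
/-- The value for the activity pattern `T` and the tables `tb`. -/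
noncomputable def F4 (T : Fin (4 * n) → Finset (Fin m)) (tb : Slot n m → GCell n m n → ZMod 2) :
    Bool :=
  decide ((∃ v, ∃ j ∈ T v, ¬ Good T (tb (v, j))) ∨ n < (ne T).card)

/-- The activity pattern: slot `c` is active if all the bits `P (c, k)` are zero. -/
def actv (P : PB n m K → Bool) (v : Fin (4 * n)) : Finset (Fin m) :=
  univ.filter fun j => ∀ k, P ((v, j), k) = false

/-- The tables. -/
def tbl (z : TB n m → Bool) (c : Slot n m) (g : GCell n m n) : ZMod 2 := bz (z (c, g))

/-- The value as a function of the flag bits and the table bits. -/
noncomputable def F5 (P : PB n m K → Bool) (z : TB n m → Bool) : Bool := F4 (actv P) (tbl z)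

/-- The input of a player. -/
abbrev Inp (n m K : ℕ) : Type := (PB n m K → Bool) × (TB n m → Bool × Bool)

/-- The total two-party function. -/
noncomputable def FF (x y : Inp n m K) : Bool :=
  F5 (fun i => xor (x.1 i) (y.1 i)) (sel x.2 y.2)

/-! ### The signed measure -/

/-- The probability that the table for the pattern `T` is `w`. -/
noncomputable def lam (T : Fin (4 * n) → Finset (Fin m)) (w : GCell n m n → Bool) : ℝ :=
  (Nat.card {ω : Rnd (GX n m) (GQ n m) n // ∀ g, inp T ω g = bz (w g)} : ℝ) /
    Nat.card (Rnd (GX n m) (GQ n m) n)

/-- The probability that slot `c` has the content `p`, `w` if the activity pattern is `T`: if `c`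
is active then the flag bits are zero and the table is a random table for `T`; if `c` is not active
then the flag bits are uniform except that they are not all zero, and the table is uniform. -/
noncomputable def kap (K : ℕ) (T : Fin (4 * n) → Finset (Fin m)) (c : Slot n m)
    (p : Fin K → Bool) (w : GCell n m n → Bool) : ℝ :=
  if c.2 ∈ T c.1 then (if ∀ k, p k = false then lam T w else 0)
  else if ∀ k, p k = false then 0
  else 1 / (2 ^ K - 1) * (1 / 2 ^ Fintype.card (GCell n m n))

/-- The distribution of the flag bits and the table bits given by the weights `W` of the activity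
patterns. -/
noncomputable def mix (K : ℕ) (W : (Fin (4 * n) → Finset (Fin m)) → ℝ) (P : PB n m K → Bool)
    (z : TB n m → Bool) : ℝ :=
  ∑ T, W T * ∏ c, kap K T c (fun k => P (c, k)) fun g => z (c, g)

end Pool.Agent.Lib.MP_ff3ed7_lc.U
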