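import Pool.Agent.Lib.MP_ff3ed7_lc.U.Defs

/-!
Estimates for the weights of the activity patterns.

* `V0_le`: the proof of `V0_nonneg` (Exact.lean) shows that the correction is at most `W0 n T`.
* `V0_empty_ge`: `|correction| ≤ 16 ^ n * ∑_{n < |ne T'|} W0 T' ≤ (1/4) ^ n (319/255) ^ (4 n) W0 ∅`
  and `(1/4) (319/255) ^ 4 < 5/8`; `W0 ∅ ≥ (255/256) ^ (4 n)` by `w0_empty_ge`.
* `joint_W0`, `joint_W1`: `∑_{T ⊇ A} w0 n T ≤ 2 ^ (-|A|)` by `sum_trace` with `R = A`, since all the
  nodes are at most `m / 2`; then expand the product over `S` and use the product structure.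
-/

open Finset

namespace Pool.Agent.Lib.MP_ff3ed7_lc.U

variable {n m D : ℕ}

/-- The correction is bounded by a multiple of the mass of the bad patterns above `T`. -/
lemma corr_le (d : ℕ) (T : Fin (4 * n) → Finset (Fin m)) :
    |∑ T' ∈ univ.filter (fun T' : Fin (4 * n) → Finset (Fin m) => n < (ne T').card),
        W0 d T' * (if res T' (ne T) = T then cf D (ne T').card (ne T).card else 0)| ≤
    16 ^ n * ∑ T' ∈ univ.filter (fun T' : Fin (4 * n) → Finset (Fin m) =>
            n < (ne T').card ∧ res T' (ne T) = T), W0 d T' := by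
  classical
  have h2 : ∀ T' : Fin (4 * n) → Finset (Fin m),
      |W0 d T' * (if res T' (ne T) = T then cf D (ne T').card (ne T).card else 0)| ≤
      16 ^ n * if res T' (ne T) = T then W0 d T' else 0 := by
    intro T'
    split_ifs with h
    · rw [abs_mul, abs_of_nonneg (W0_nonneg T')]
      have h3 := abs_cf_le D (ne T').card (ne T).card
      have h4 : (2 : ℝ) ^ (ne T').card ≤ 16 ^ n := by
        have h5 : (ne T').card ≤ 4 * n := by
          have := card_le_univ (ne T')
          simpa using this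
        calc (2 : ℝ) ^ (ne T').card ≤ 2 ^ (4 * n) := pow_le_pow_right₀ (by norm_num) h5
          _ = 16 ^ n := by rw [pow_mul]; norm_num
      calc W0 d T' * |cf D (ne T').card (ne T).card| ≤ W0 d T' * 16 ^ n :=
            mul_le_mul_of_nonneg_left (h3.trans h4) (W0_nonneg T')
        _ = _ := mul_comm _ _
    · simp
  have h7 : (∑ T' ∈ univ.filter (fun T' : Fin (4 * n) → Finset (Fin m) => n < (ne T').card),
      16 ^ n * if res T' (ne T) = T then W0 d T' else 0) =
      16 ^ n * ∑ T' ∈ univ.filter (fun T' : Fin (4 * n) → Finset (Fin m) =>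
        n < (ne T').card ∧ res T' (ne T) = T), W0 d T' := by
    rw [← mul_sum, ← sum_filter, filter_filter]
  rw [← h7]
  exact (abs_sum_le_sum_abs _ _).trans (sum_le_sum fun T' _ => h2 T')

theorem V0_le (hm : ∀ t ∈ nds n, t ≤ m) (hD : 9 * D ≤ n) (T : Fin (4 * n) → Finset (Fin m)) :
    V0 n D T ≤ 2 * W0 n T := by
  classical
  have hW := W0_nonneg (d := n) T
  by_cases hT : (ne T).card ≤ D
  · have hTn : (ne T).card ≤ n := by omega
    unfold V0
    rw [if_pos hTn]
    have h6 := above_le (d := n) hm T hT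
    have h5 := corr_le (D := D) n T
    set s := ∑ T' ∈ univ.filter (fun T' : Fin (4 * n) → Finset (Fin m) =>
          n < (ne T').card ∧ res T' (ne T) = T), W0 n T'
    -- numerical estimate
    have h8 : (16 : ℝ) ^ n * (64 ^ D * (319 / 255) ^ (4 * n)) ≤ 64 ^ n := by
      have e1 : (64 : ℝ) ^ D ≤ (8 / 5) ^ n := by
        calc (64 : ℝ) ^ D ≤ ((8 / 5) ^ 9) ^ D := pow_le_pow_left₀ (by norm_num) (by norm_num) D
          _ = (8 / 5) ^ (9 * D) := by rw [pow_mul]
          _ ≤ (8 / 5) ^ n := pow_le_pow_right₀ (by norm_num) hD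
      have e2 : (319 / 255 : ℝ) ^ (4 * n) ≤ (5 / 2) ^ n := by
        rw [pow_mul]
        exact pow_le_pow_left₀ (by norm_num) (by norm_num) n
      calc (16 : ℝ) ^ n * (64 ^ D * (319 / 255) ^ (4 * n)) ≤ 16 ^ n * ((8 / 5) ^ n * (5 / 2) ^ n) := by
            gcongr
        _ = 64 ^ n := by rw [← mul_pow, ← mul_pow]; norm_num
    have h9 : (64 : ℝ) ^ n * (16 ^ n * s) ≤ 64 ^ n * W0 n T := by
      calc (64 : ℝ) ^ n * (16 ^ n * s) = 16 ^ n * (64 ^ n * s) := by ring
        _ ≤ 16 ^ n * (64 ^ D * ((319 / 255) ^ (4 * n) * W0 n T)) :=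
            mul_le_mul_of_nonneg_left h6 (by positivity)
        _ = (16 ^ n * (64 ^ D * (319 / 255) ^ (4 * n))) * W0 n T := by ring
        _ ≤ 64 ^ n * W0 n T := mul_le_mul_of_nonneg_right h8 (W0_nonneg _)
    have h10 := le_of_mul_le_mul_left h9 (by positivity)
    have h11 := (le_abs_self _).trans (h5.trans h10)
    linarith
  · unfold V0
    have h1 : ∑ T' ∈ univ.filter (fun T' : Fin (4 * n) → Finset (Fin m) => n < (ne T').card),
        W0 n T' * (if res T' (ne T) = T then cf D (ne T').card (ne T).card else 0) = 0 := by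
      refine sum_eq_zero fun T' _ => ?_
      rw [cf_eq_zero (by omega)]
      simp
    rw [h1, add_zero]
    split_ifs <;> linarith

theorem V0_empty_ge (hm : ∀ t ∈ nds n, t ≤ m) (hn : 1 ≤ n) :
    3 / 8 * (255 / 256 : ℝ) ^ (4 * n) ≤ V0 n D fun _ : Fin (4 * n) => (∅ : Finset (Fin m)) := by
  classical
  set T : Fin (4 * n) → Finset (Fin m) := fun _ => ∅ with hT
  have hne : (ne T).card = 0 := by
    rw [card_eq_zero]
    ext v
    simp [mem_ne, hT]
  have hW : (255 / 256 : ℝ) ^ (4 * n) ≤ W0 n T := by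
    have h1 := w0_empty_ge (m := m) hm
    unfold W0
    calc (255 / 256 : ℝ) ^ (4 * n) = ∏ _v : Fin (4 * n), (255 / 256 : ℝ) := by
          rw [prod_const, card_univ, Fintype.card_fin]
      _ ≤ _ := prod_le_prod (fun _ _ => by norm_num) fun v _ => h1
  have h6 := above_le (D := 0) (d := n) hm T hne.le
  have h5 := corr_le (D := D) n T
  set s := ∑ T' ∈ univ.filter (fun T' : Fin (4 * n) → Finset (Fin m) =>
        n < (ne T').card ∧ res T' (ne T) = T), W0 n T'
  rw [pow_zero, one_mul] at h6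
  have hW0 := W0_nonneg (d := n) T
  have h8 : (16 : ℝ) ^ n * (319 / 255) ^ (4 * n) ≤ 5 / 8 * 64 ^ n := by
    have e3 : (16 : ℝ) ^ n * (319 / 255) ^ (4 * n) ≤ 40 ^ n := by
      rw [pow_mul, ← mul_pow]
      exact pow_le_pow_left₀ (by norm_num) (by norm_num) n
    refine e3.trans ?_
    obtain ⟨k, rfl⟩ : ∃ k, n = k + 1 := ⟨n - 1, by omega⟩
    rw [pow_succ, pow_succ]
    have : (40 : ℝ) ^ k ≤ 64 ^ k := pow_le_pow_left₀ (by norm_num) (by norm_num) k
    linarith
  have h9 : (64 : ℝ) ^ n * (16 ^ n * s) ≤ 64 ^ n * (5 / 8 * W0 n T) := by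
    calc (64 : ℝ) ^ n * (16 ^ n * s) = 16 ^ n * (64 ^ n * s) := by ring
      _ ≤ 16 ^ n * ((319 / 255) ^ (4 * n) * W0 n T) :=
          mul_le_mul_of_nonneg_left h6 (by positivity)
      _ = (16 ^ n * (319 / 255) ^ (4 * n)) * W0 n T := by ring
      _ ≤ 5 / 8 * 64 ^ n * W0 n T := mul_le_mul_of_nonneg_right h8 hW0
      _ = _ := by ring
  have h10 := le_of_mul_le_mul_left h9 (by positivity)
  have h11 := (neg_abs_le _).trans' (neg_le_neg (h5.trans h10))
  unfold V0
  rw [if_pos (by omega)]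
  linarith

/-! ### The joint bound -/

lemma descFactorial_half {t : ℕ} (h : 2 * t ≤ m) (a : ℕ) :
    2 ^ a * t.descFactorial a ≤ m.descFactorial a := by
  induction a with
  | zero => simp
  | succ a ih =>
    rw [Nat.descFactorial_succ, Nat.descFactorial_succ, pow_succ]
    calc 2 ^ a * 2 * ((t - a) * t.descFactorial a) = (2 * (t - a)) * (2 ^ a * t.descFactorial a) := by
          ring
      _ ≤ (m - a) * m.descFactorial a := Nat.mul_le_mul (by omega) ih

lemma superset_le {d : ℕ} {g : ℕ → ℝ} (hg : ∀ t, 0 ≤ g t) (hg1 : ∑ t ∈ nds d, g t = 1)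
    (hm : ∀ t ∈ nds d, 2 * t ≤ m) (A : Finset (Fin m)) :
    ∑ T ∈ univ.filter (fun T : Finset (Fin m) => A ⊆ T), wt d g T ≤ (1 / 2) ^ A.card := by
  have hm' : ∀ t ∈ nds d, t ≤ m := fun t ht => by have := hm t ht; omega
  have h1 := sum_trace (m := m) d g (subset_refl A) hm'
  have hAm : A.card ≤ m := by simpa using card_le_univ A
  have hpos : (0 : ℝ) < m.descFactorial A.card := by
    exact_mod_cast Nat.descFactorial_pos.mpr hAm
  have h2 : (univ.filter fun T : Finset (Fin m) => T ∩ A = A) =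
      univ.filter fun T : Finset (Fin m) => A ⊆ T := by
    ext T
    simp only [mem_filter, mem_univ, true_and, inter_eq_right]
  rw [h2] at h1
  have h3 : ∑ t ∈ nds d, g t * ((t.descFactorial A.card : ℝ) *
        ((m - t).descFactorial (A.card - A.card) : ℝ)) ≤
      (1 / 2) ^ A.card * m.descFactorial A.card := by
    calc _ ≤ ∑ t ∈ nds d, g t * ((1 / 2) ^ A.card * m.descFactorial A.card) := by
          refine sum_le_sum fun t ht => mul_le_mul_of_nonneg_left ?_ (hg t)
          rw [Nat.sub_self, Nat.descFactorial_zero, Nat.cast_one, mul_one]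
          have h4 : ((2 ^ A.card * t.descFactorial A.card : ℕ) : ℝ) ≤ m.descFactorial A.card := by
            exact_mod_cast descFactorial_half (hm t ht) A.card
          push_cast at h4
          have h5 : ((1 : ℝ) / 2) ^ A.card * 2 ^ A.card = 1 := by
            rw [← mul_pow]; norm_num
          calc (t.descFactorial A.card : ℝ)
              = (1 / 2) ^ A.card * (2 ^ A.card * t.descFactorial A.card) := by
                rw [← mul_assoc, h5, one_mul]
            _ ≤ _ := mul_le_mul_of_nonneg_left h4 (by positivity)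
      _ = _ := by rw [← sum_mul, hg1, one_mul]
  rw [← h1] at h3
  exact le_of_mul_le_mul_right h3 hpos

lemma joint_block {d : ℕ} {g : ℕ → ℝ} (hg : ∀ t, 0 ≤ g t) (hg1 : ∑ t ∈ nds d, g t = 1)
    (hm : ∀ t ∈ nds d, 2 * t ≤ m) (R : Finset (Fin m)) {η : ℝ} (hη : 0 ≤ η) :
    ∑ T : Finset (Fin m), wt d g T * ∏ j ∈ R, ((if j ∈ T then 1 else 0) + η) ≤
      (1 / 2 + η) ^ R.card := by
  classical
  have h1 : ∀ T : Finset (Fin m), wt d g T * ∏ j ∈ R, ((if j ∈ T then 1 else 0) + η) =
      ∑ A ∈ R.powerset, η ^ (R \ A).card * (if A ⊆ T then wt d g T else 0) := by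
    intro T
    rw [Finset.prod_add, mul_sum]
    refine sum_congr rfl fun A hA => ?_
    rw [prod_const]
    have h2 : ∏ j ∈ A, (if j ∈ T then (1 : ℝ) else 0) = if A ⊆ T then 1 else 0 := by
      rw [prod_ite_zero]
      simp [subset_iff]
    rw [h2]
    split_ifs <;> ring
  simp_rw [h1]
  rw [sum_comm]
  calc ∑ A ∈ R.powerset, ∑ T : Finset (Fin m), η ^ (R \ A).card * (if A ⊆ T then wt d g T else 0)
      ≤ ∑ A ∈ R.powerset, η ^ (R \ A).card * (1 / 2) ^ A.card := by
        refine sum_le_sum fun A _ => ?_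
        rw [← mul_sum, ← sum_filter]
        exact mul_le_mul_of_nonneg_left (superset_le hg hg1 hm A) (by positivity)
    _ = ∏ _j ∈ R, (1 / 2 + η) := by
        rw [Finset.prod_add]
        refine sum_congr rfl fun A _ => ?_
        rw [prod_const, prod_const]
        ring
    _ = _ := by rw [prod_const]

lemma joint_wt {d : ℕ} {g : ℕ → ℝ} (hg : ∀ t, 0 ≤ g t) (hg1 : ∑ t ∈ nds d, g t = 1)
    (hm : ∀ t ∈ nds d, 2 * t ≤ m) (S : Finset (Slot n m)) {η : ℝ} (hη : 0 ≤ η) :
    ∑ T : Fin (4 * n) → Finset (Fin m), (∏ v, wt d g (T v)) *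
      ∏ c ∈ S, ((if c.2 ∈ T c.1 then 1 else 0) + η) ≤ (1 / 2 + η) ^ S.card := by
  classical
  let R : Fin (4 * n) → Finset (Fin m) := fun v => univ.filter fun j => (v, j) ∈ S
  have h1 : ∀ f : Fin (4 * n) → Fin m → ℝ, ∏ c ∈ S, f c.1 c.2 = ∏ v, ∏ j ∈ R v, f v j := by
    intro f
    rw [prod_sigma']
    refine prod_bij' (fun c _ => ⟨c.1, c.2⟩) (fun c _ => (c.1, c.2)) ?_ ?_ ?_ ?_ ?_
    · intro c hc
      simpa [R] using hc
    · rintro ⟨v, j⟩ hc
      simpa [R] using hc
    · intro c _; rfl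
    · intro c _; rfl
    · intro c _; rfl
  have h2 : S.card = ∑ v, (R v).card := by
    have h3 := Finset.card_eq_sum_card_fiberwise (f := Prod.fst) (s := S)
      (t := (univ : Finset (Fin (4 * n)))) (fun _ _ => mem_univ _)
    rw [h3]
    refine sum_congr rfl fun v _ => ?_
    refine card_nbij' (fun c => c.2) (fun j => (v, j)) ?_ ?_ ?_ ?_
    · intro c hc
      simp only [coe_filter, Set.mem_ofPred_eq] at hc
      obtain ⟨h4, h5⟩ := hc
      simp only [R, coe_filter, mem_univ, true_and, Set.mem_ofPred_eq]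
      rw [← h5]
      exact h4
    · intro j hj
      simp only [R, coe_filter, mem_univ, true_and, Set.mem_ofPred_eq] at hj
      simp only [coe_filter, Set.mem_ofPred_eq]
      exact ⟨hj, trivial⟩
    · intro c hc
      simp only [coe_filter, Set.mem_ofPred_eq] at hc
      rw [← hc.2]
    · intro j _; rfl
  calc ∑ T : Fin (4 * n) → Finset (Fin m), (∏ v, wt d g (T v)) *
      ∏ c ∈ S, ((if c.2 ∈ T c.1 then 1 else 0) + η)
      = ∑ T : Fin (4 * n) → Finset (Fin m), ∏ v, (wt d g (T v) *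
          ∏ j ∈ R v, ((if j ∈ T v then 1 else 0) + η)) := by
        refine sum_congr rfl fun T _ => ?_
        rw [prod_mul_distrib, h1 fun v j => (if j ∈ T v then 1 else 0) + η]
    _ = ∏ v, ∑ T : Finset (Fin m), wt d g T * ∏ j ∈ R v, ((if j ∈ T then 1 else 0) + η) := by
        rw [prod_univ_sum, Fintype.piFinset_univ]
    _ ≤ ∏ v, (1 / 2 + η) ^ (R v).card := by
        refine prod_le_prod (fun v _ => ?_) fun v _ => joint_block hg hg1 hm (R v) hη
        refine sum_nonneg fun T _ => mul_nonneg (wt_nonneg hg T) (prod_nonneg fun j _ => ?_)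
        split_ifs <;> linarith
    _ = (1 / 2 + η) ^ S.card := by rw [prod_pow_eq_pow_sum, h2]

theorem joint_W0 (hm : ∀ t ∈ nds n, 2 * t ≤ m) (S : Finset (Slot n m)) {η : ℝ} (hη : 0 ≤ η) :
    ∑ T, W0 n T * ∏ c ∈ S, ((if c.2 ∈ T c.1 then 1 else 0) + η) ≤ (1 / 2 + η) ^ S.card := by
  refine joint_wt (fun t => div_nonneg (le_max_right _ _) (Zp_pos n).le) ?_ hm S hη
  rw [← sum_div]
  exact div_self (Zp_pos n).ne'

theorem joint_W1 (hm : ∀ t ∈ nds n, 2 * t ≤ m) (S : Finset (Slot n m)) {η : ℝ} (hη : 0 ≤ η) :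
    ∑ T, W1 n T * ∏ c ∈ S, ((if c.2 ∈ T c.1 then 1 else 0) + η) ≤ (1 / 2 + η) ^ S.card := by
  refine joint_wt (fun t => div_nonneg (le_max_right _ _) (Zp_pos n).le) ?_ hm S hη
  rw [← sum_div, Zp_eq]
  exact div_self (Zp_pos n).ne'

end Pool.Agent.Lib.MP_ff3ed7_lc.U
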