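import Pool.Agent.Lib.MP_ff3ed7_lc.Pattern

/-!
Norm bound for the matrix `ψ (x.1 ⊕ y.1, sel x.2 y.2)`.

Proof.  Expand `ψ` in the characters of the first argument: with `ψ_U z = ∑ P, ψ P z χ_U(P)`,
`2 ^ |p| ψ P z = ∑ U, ψ_U z χ_U(P)` and `χ_U(x ⊕ y) = χ_U(x) χ_U(y)`.  For fixed `U` use the
arguments of `alpha_bound`, `beta_bound`, `expand`, `rect_bound` of `Pattern.lean` with arbitrary
vectors `a`, `b` instead of bounded ones: `(∑ x ∑ y ψ_U(sel x y) a x b y)² ≤ M 4^|t| ∑ a² ∑ b²`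
(alpha: `≤ 8 ^ |t| ∑ a²`, beta: `≤ 2 ^ |t| ∑ b²`).  Then Cauchy-Schwarz over `U` and Parseval in
`x.1` and `y.1`.
-/

open Finset

namespace Pool.Agent.Lib.MP_ff3ed7_lc.U

section One

variable {t : Type} [Fintype t] [DecidableEq t]

theorem alpha_norm (a : (t → Bool × Bool) → ℝ) :
    ∑ Sv : Finset t × (t → Bool), (2 : ℝ) ^ Sv.1.card *
      (∑ x, a x * ∏ i ∈ Sv.1, chi (pick (x i) (Sv.2 i))) ^ 2 ≤
      8 ^ Fintype.card t * ∑ x, a x ^ 2 := by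
  rw [sum_sq_kernel]
  simp_rw [alpha_kernel]
  rw [← sum_sq_kernel]
  have h1 : ∀ c : t → Bool × Bool,
      (∏ i, mm (c i)) * (∑ x, a x * ∏ i, kk (c i) (x i)) ^ 2 ≤
      2 ^ Fintype.card t * (∑ x, a x * ∏ i, kk (c i) (x i)) ^ 2 := by
    intro c
    refine mul_le_mul_of_nonneg_right ?_ (sq_nonneg _)
    calc (∏ i, mm (c i)) ≤ ∏ i : t, (2 : ℝ) :=
          Finset.prod_le_prod (fun i _ => mm_nonneg _) (fun i _ => mm_le _)
      _ = 2 ^ Fintype.card t := by simp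
  refine (Finset.sum_le_sum fun c _ => h1 c).trans ?_
  rw [← Finset.mul_sum, parseval_kk, ← mul_assoc, ← mul_pow]
  norm_num

theorem beta_norm (b : (t → Bool × Bool) → ℝ) :
    ∑ Sv : Finset t × (t → Bool),
      (∑ w, b (join Sv.2 w) * ∏ i ∈ Sv.1, chi (w i)) ^ 2 =
      2 ^ Fintype.card t * ∑ y, b y ^ 2 := by
  rw [Fintype.sum_prod_type, Finset.sum_comm]
  simp_rw [parseval]
  rw [← Finset.mul_sum, sum_join]

/-- The norm bound for the gadget `sel`. -/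
theorem sel_norm (ψ : (t → Bool) → ℝ) (M : ℝ)
    (hM : ∀ S : Finset t, (∑ z, ψ z * ∏ i ∈ S, chi (z i)) ^ 2 ≤ M * 2 ^ S.card)
    (a b : (t → Bool × Bool) → ℝ) :
    (∑ x, ∑ y, ψ (sel x y) * a x * b y) ^ 2 ≤
      M * 4 ^ Fintype.card t * (∑ x, a x ^ 2) * ∑ y, b y ^ 2 := by
  have hM0 : 0 ≤ M := by
    have := hM ∅
    simp only [Finset.prod_empty, mul_one, Finset.card_empty, pow_zero] at this
    exact (sq_nonneg _).trans this
  have h := expand ψ a b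
  set X := ∑ x, ∑ y, ψ (sel x y) * a x * b y with hX
  have h2 : ((2 : ℝ) ^ Fintype.card t * X) ^ 2 ≤
      (M * (8 ^ Fintype.card t * ∑ x, a x ^ 2)) * (2 ^ Fintype.card t * ∑ y, b y ^ 2) := by
    rw [h]
    refine (Finset.sum_mul_sq_le_sq_mul_sq _ _ _).trans ?_
    rw [beta_norm]
    refine mul_le_mul_of_nonneg_right ?_ (by positivity)
    refine le_trans ?_ (mul_le_mul_of_nonneg_left (alpha_norm a) hM0)
    rw [Finset.mul_sum]
    refine Finset.sum_le_sum fun Sv _ => ?_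
    rw [mul_pow, ← mul_assoc]
    exact mul_le_mul_of_nonneg_right (hM Sv.1) (sq_nonneg _)
  have h3 : ((2 : ℝ) ^ Fintype.card t * X) ^ 2 = 4 ^ Fintype.card t * X ^ 2 := by
    rw [mul_pow, ← pow_mul, mul_comm (Fintype.card t) 2, pow_mul]
    norm_num
  have h4 : (M * (8 ^ Fintype.card t * ∑ x, a x ^ 2)) * (2 ^ Fintype.card t * ∑ y, b y ^ 2) =
      4 ^ Fintype.card t * (M * 4 ^ Fintype.card t * (∑ x, a x ^ 2) * ∑ y, b y ^ 2) := by
    have h5 : (8 : ℝ) ^ Fintype.card t * 2 ^ Fintype.card t =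
        4 ^ Fintype.card t * 4 ^ Fintype.card t := by
      rw [← mul_pow, ← mul_pow]
      norm_num
    linear_combination (M * (∑ x, a x ^ 2) * ∑ y, b y ^ 2) * h5
  rw [h3, h4] at h2
  exact le_of_mul_le_mul_left h2 (by positivity)

end One

variable {p t : Type} [Fintype p] [DecidableEq p] [Fintype t] [DecidableEq t]

omit [Fintype p] [DecidableEq p] [Fintype t] [DecidableEq t] in
theorem sum_swap5 {A B C D E : Type} [Fintype A] [Fintype B] [Fintype C] [Fintype D] [Fintype E]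
    (G : A → B → C → D → E → ℝ) :
    ∑ a, ∑ b, ∑ c, ∑ d, ∑ e, G a b c d e = ∑ e, ∑ b, ∑ d, ∑ a, ∑ c, G a b c d e := by
  calc ∑ a, ∑ b, ∑ c, ∑ d, ∑ e, G a b c d e
      = ∑ a, ∑ b, ∑ c, ∑ e, ∑ d, G a b c d e :=
        Finset.sum_congr rfl fun a _ => Finset.sum_congr rfl fun b _ =>
          Finset.sum_congr rfl fun c _ => Finset.sum_comm
    _ = ∑ a, ∑ b, ∑ e, ∑ c, ∑ d, G a b c d e :=
        Finset.sum_congr rfl fun a _ => Finset.sum_congr rfl fun b _ => Finset.sum_comm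
    _ = ∑ a, ∑ e, ∑ b, ∑ c, ∑ d, G a b c d e :=
        Finset.sum_congr rfl fun a _ => Finset.sum_comm
    _ = ∑ e, ∑ a, ∑ b, ∑ c, ∑ d, G a b c d e := Finset.sum_comm
    _ = ∑ e, ∑ b, ∑ a, ∑ c, ∑ d, G a b c d e :=
        Finset.sum_congr rfl fun e _ => Finset.sum_comm
    _ = ∑ e, ∑ b, ∑ a, ∑ d, ∑ c, G a b c d e :=
        Finset.sum_congr rfl fun e _ => Finset.sum_congr rfl fun b _ =>
          Finset.sum_congr rfl fun a _ => Finset.sum_comm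
    _ = ∑ e, ∑ b, ∑ d, ∑ a, ∑ c, G a b c d e :=
        Finset.sum_congr rfl fun e _ => Finset.sum_congr rfl fun b _ => Finset.sum_comm

/-- Parseval for the first components. -/
theorem parseval_fst {Q : Type} [Fintype Q] (a : (p → Bool) × Q → ℝ) :
    ∑ U : Finset p, ∑ x₂, (∑ x₁, a (x₁, x₂) * ∏ i ∈ U, chi (x₁ i)) ^ 2 =
      2 ^ Fintype.card p * ∑ x, a x ^ 2 := by
  rw [Finset.sum_comm]
  simp_rw [parseval]
  rw [← Finset.mul_sum, Finset.sum_comm, ← Fintype.sum_prod_type']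

theorem expand_fst (ψ : (p → Bool) → (t → Bool) → ℝ)
    (a b : (p → Bool) × (t → Bool × Bool) → ℝ) :
    (2 : ℝ) ^ Fintype.card p *
      ∑ x, ∑ y, ψ (fun i => xor (x.1 i) (y.1 i)) (sel x.2 y.2) * a x * b y =
    ∑ U : Finset p, ∑ x₂, ∑ y₂, (∑ P, ψ P (sel x₂ y₂) * ∏ i ∈ U, chi (P i)) *
      (∑ x₁, a (x₁, x₂) * ∏ i ∈ U, chi (x₁ i)) *
      (∑ y₁, b (y₁, y₂) * ∏ i ∈ U, chi (y₁ i)) := by
  have L : (2 : ℝ) ^ Fintype.card p *
      ∑ x, ∑ y, ψ (fun i => xor (x.1 i) (y.1 i)) (sel x.2 y.2) * a x * b y =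
      ∑ x₁ : p → Bool, ∑ x₂ : t → Bool × Bool, ∑ y₁ : p → Bool, ∑ y₂ : t → Bool × Bool,
        ∑ U : Finset p, (∑ P, ψ P (sel x₂ y₂) * ∏ i ∈ U, chi (P i)) *
          (a (x₁, x₂) * ∏ i ∈ U, chi (x₁ i)) * (b (y₁, y₂) * ∏ i ∈ U, chi (y₁ i)) := by
    rw [Fintype.sum_prod_type, Finset.mul_sum]
    refine Finset.sum_congr rfl fun x₁ _ => ?_
    rw [Finset.mul_sum]
    refine Finset.sum_congr rfl fun x₂ _ => ?_
    rw [Fintype.sum_prod_type, Finset.mul_sum]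
    refine Finset.sum_congr rfl fun y₁ _ => ?_
    rw [Finset.mul_sum]
    refine Finset.sum_congr rfl fun y₂ _ => ?_
    rw [← mul_assoc, ← mul_assoc, inversion (fun P => ψ P (sel x₂ y₂)), Finset.sum_mul,
      Finset.sum_mul]
    refine Finset.sum_congr rfl fun U _ => ?_
    simp_rw [chi_xor, Finset.prod_mul_distrib]
    ring
  have R : ∀ (U : Finset p) (x₂ y₂ : t → Bool × Bool),
      (∑ P, ψ P (sel x₂ y₂) * ∏ i ∈ U, chi (P i)) *
        (∑ x₁, a (x₁, x₂) * ∏ i ∈ U, chi (x₁ i)) *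
        (∑ y₁, b (y₁, y₂) * ∏ i ∈ U, chi (y₁ i)) =
      ∑ x₁ : p → Bool, ∑ y₁ : p → Bool,
        (∑ P, ψ P (sel x₂ y₂) * ∏ i ∈ U, chi (P i)) *
          (a (x₁, x₂) * ∏ i ∈ U, chi (x₁ i)) * (b (y₁, y₂) * ∏ i ∈ U, chi (y₁ i)) := by
    intro U x₂ y₂
    generalize (∑ P, ψ P (sel x₂ y₂) * ∏ i ∈ U, chi (P i)) = c
    rw [Finset.mul_sum _ (fun x₁ => a (x₁, x₂) * ∏ i ∈ U, chi (x₁ i)) c, Finset.sum_mul_sum]
  rw [L, sum_swap5]
  simp only [R]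

theorem mixed_bound (ψ : (p → Bool) → (t → Bool) → ℝ) (M : ℝ)
    (hM : ∀ (U : Finset p) (S : Finset t),
      (∑ P, ∑ z, ψ P z * (∏ i ∈ U, chi (P i)) * ∏ i ∈ S, chi (z i)) ^ 2 ≤ M * 2 ^ S.card)
    (a b : (p → Bool) × (t → Bool × Bool) → ℝ) :
    (∑ x, ∑ y, ψ (fun i => xor (x.1 i) (y.1 i)) (sel x.2 y.2) * a x * b y) ^ 2 ≤
      M * 4 ^ Fintype.card t * (∑ x, a x ^ 2) * ∑ y, b y ^ 2 := by
  have hM0 : 0 ≤ M := by
    have := hM ∅ ∅
    simp only [Finset.prod_empty, mul_one, Finset.card_empty, pow_zero] at this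
    exact (sq_nonneg _).trans this
  have h := expand_fst ψ a b
  set X := ∑ x, ∑ y, ψ (fun i => xor (x.1 i) (y.1 i)) (sel x.2 y.2) * a x * b y with hX
  have h1 : ∀ U : Finset p,
      (∑ x₂, ∑ y₂, (∑ P, ψ P (sel x₂ y₂) * ∏ i ∈ U, chi (P i)) *
        (∑ x₁, a (x₁, x₂) * ∏ i ∈ U, chi (x₁ i)) *
        (∑ y₁, b (y₁, y₂) * ∏ i ∈ U, chi (y₁ i))) ^ 2 ≤
      (M * 4 ^ Fintype.card t * ∑ x₂, (∑ x₁, a (x₁, x₂) * ∏ i ∈ U, chi (x₁ i)) ^ 2) *
        ∑ y₂, (∑ y₁, b (y₁, y₂) * ∏ i ∈ U, chi (y₁ i)) ^ 2 := by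
    intro U
    refine sel_norm (fun z => ∑ P, ψ P z * ∏ i ∈ U, chi (P i)) M ?_ _ _
    intro S
    refine le_trans (le_of_eq ?_) (hM U S)
    congr 1
    rw [Finset.sum_comm]
    exact Finset.sum_congr rfl fun z _ => Finset.sum_mul _ _ _
  have h2 : ((2 : ℝ) ^ Fintype.card p * X) ^ 2 ≤
      (M * 4 ^ Fintype.card t * (2 ^ Fintype.card p * ∑ x, a x ^ 2)) *
        (2 ^ Fintype.card p * ∑ y, b y ^ 2) := by
    rw [h, ← parseval_fst a, ← parseval_fst b,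
      Finset.mul_sum _ (fun U : Finset p => ∑ x₂, (∑ x₁, a (x₁, x₂) * ∏ i ∈ U, chi (x₁ i)) ^ 2)
        (M * 4 ^ Fintype.card t)]
    refine Finset.sum_sq_le_sum_mul_sum_of_sq_le_mul _ (fun U _ => ?_) (fun U _ => ?_)
      fun U _ => h1 U
    · positivity
    · positivity
  have h3 : ((2 : ℝ) ^ Fintype.card p * X) ^ 2 =
      (2 ^ Fintype.card p * 2 ^ Fintype.card p) * X ^ 2 := by
    ring
  have h4 : (M * 4 ^ Fintype.card t * (2 ^ Fintype.card p * ∑ x, a x ^ 2)) *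
        (2 ^ Fintype.card p * ∑ y, b y ^ 2) =
      (2 ^ Fintype.card p * 2 ^ Fintype.card p) *
        (M * 4 ^ Fintype.card t * (∑ x, a x ^ 2) * ∑ y, b y ^ 2) := by
    ring
  rw [h3, h4] at h2
  exact le_of_mul_le_mul_left h2 (by positivity)

end Pool.Agent.Lib.MP_ff3ed7_lc.U
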